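import Mathlib

/-! Numerical radius and fractional powers of complex matrices. -/

namespace Pool.Agent.H63N.NR

open Matrix MeasureTheory

/-- The value `⟨A x, x⟩ = ∑ i, conj (x i) (A x) i` of the form of `A` at `x`, for the standard inner
product of `ℂⁿ`. -/
def form {n : ℕ} (A : Matrix (Fin n) (Fin n) ℂ) (x : Fin n → ℂ) : ℂ :=
  ∑ i, star (x i) * (A *ᵥ x) i

/-- `A` is accretive: its numerical range `{⟨A x, x⟩ : ‖x‖ = 1}` lies in the open right half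
plane. -/
def Accretive {n : ℕ} (A : Matrix (Fin n) (Fin n) ℂ) : Prop :=
  ∀ x : Fin n → ℂ, ∑ i, ‖x i‖ ^ 2 = 1 → 0 < (form A x).re

/-- The numerical radius `ω(A) = sup {|⟨A x, x⟩| : ‖x‖ = 1}`. -/
noncomputable def numRadius {n : ℕ} (A : Matrix (Fin n) (Fin n) ℂ) : ℝ :=
  sSup {r : ℝ | ∃ x : Fin n → ℂ, ∑ i, ‖x i‖ ^ 2 = 1 ∧ r = ‖form A x‖}

/-- The principal fractional power `A^t = (sin (t π) / π) ∫₀^∞ s^(t-1) A (s + A)⁻¹ ds` (the integral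
is taken entrywise). -/
noncomputable def fracPow {n : ℕ} (A : Matrix (Fin n) (Fin n) ℂ) (t : ℝ) :
    Matrix (Fin n) (Fin n) ℂ :=
  Matrix.of fun i j => ((Real.sin (t * Real.pi) / Real.pi : ℝ) : ℂ) *
    ∫ s in Set.Ioi (0 : ℝ), ((s ^ (t - 1) : ℝ) : ℂ) *
      (A * ((s : ℂ) • (1 : Matrix (Fin n) (Fin n) ℂ) + A)⁻¹) i j

end Pool.Agent.H63N.NR
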