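import Pool.Agent.H63N.NRDiag3

/-! Density of the diagonalizable matrices on a segment. -/

namespace Pool.Agent.H63N.NR

open Matrix Polynomial

variable {n : ℕ}

/-- A matrix with separable characteristic polynomial is diagonalizable. -/
theorem diag_of_separable (M : Matrix (Fin n) (Fin n) ℂ) (hM : M.charpoly.Separable) :
    ∃ (S : Matrix (Fin n) (Fin n) ℂ) (lam : Fin n → ℂ), IsUnit S.det ∧ M = Phi S lam := by
  classical
  have hcard : M.charpoly.roots.toFinset.card = n := by
    rw [Multiset.toFinset_card_of_nodup (nodup_roots hM),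
      splits_iff_card_roots.1 (IsAlgClosed.splits M.charpoly), Matrix.charpoly_natDegree_eq_dim,
      Fintype.card_fin]
  set e := (Finset.equivFinOfCardEq hcard).symm with he
  set lam : Fin n → ℂ := fun k => (e k : ℂ) with hlam
  have hinj : Function.Injective lam := fun a b h => e.injective (Subtype.ext h)
  have hroot : ∀ k, M.charpoly.IsRoot (lam k) := by
    intro k
    have := (e k).2
    rw [Multiset.mem_toFinset] at this
    exact isRoot_of_mem_roots this
  have hv : ∀ k, ∃ v : Fin n → ℂ, v ≠ 0 ∧ M *ᵥ v = lam k • v := by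
    intro k
    have h1 : (Matrix.scalar (Fin n) (lam k) - M).det = 0 := by
      have := hroot k
      rwa [IsRoot.def, Matrix.eval_charpoly] at this
    obtain ⟨v, hv0, hv⟩ := Matrix.exists_mulVec_eq_zero_iff.2 h1
    refine ⟨v, hv0, ?_⟩
    rw [Matrix.sub_mulVec, sub_eq_zero] at hv
    rw [← hv]
    simp
  choose v hv0 hv using hv
  set S : Matrix (Fin n) (Fin n) ℂ := Matrix.of fun i k => v k i with hS
  have hlin : LinearIndependent ℂ v := by
    refine Module.End.eigenvectors_linearIndependent' (Matrix.toLin' M) lam hinj v (fun k => ?_)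
    rw [Module.End.hasEigenvector_iff, Module.End.mem_eigenspace_iff]
    exact ⟨by rw [Matrix.toLin'_apply]; exact hv k, hv0 k⟩
  have hdet : IsUnit S.det := by
    rw [← Matrix.isUnit_iff_isUnit_det]
    exact Matrix.linearIndependent_cols_iff_isUnit.1 hlin
  refine ⟨S, lam, hdet, ?_⟩
  have h2 : M * S = S * diagonal lam := by
    ext i k
    rw [Matrix.mul_diagonal]
    have := congrFun (hv k) i
    simp only [Matrix.mulVec, dotProduct, Pi.smul_apply, smul_eq_mul] at this
    rw [Matrix.mul_apply]
    simp only [hS, Matrix.of_apply]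
    rw [this]; ring
  unfold Phi
  rw [← h2, Matrix.mul_assoc, Matrix.mul_nonsing_inv _ hdet, Matrix.mul_one]

/-- the diagonal matrix `diag(1, …, n)` -/
noncomputable def Lam (n : ℕ) : Matrix (Fin n) (Fin n) ℂ := diagonal fun i => ((i : ℕ) : ℂ) + 1

theorem exists_eps (A : Matrix (Fin n) (Fin n) ℂ) (η : ℝ) (hη : 0 < η) :
    ∃ ε : ℝ, 0 < ε ∧ ε < η ∧ ∃ (S : Matrix (Fin n) (Fin n) ℂ) (lam : Fin n → ℂ),
      IsUnit S.det ∧ (1 - (ε : ℂ)) • A + (ε : ℂ) • Lam n = Phi S lam := by
  classical
  set N : Matrix (Fin n) (Fin n) ℂ[X] := (1 - X : ℂ[X]) • A.map C + (X : ℂ[X]) • (Lam n).map C with hN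
  have hmap : ∀ z : ℂ, N.map (evalRingHom z) = (1 - z) • A + z • Lam n := by
    intro z
    ext i j
    simp [hN]
    ring
  set q : ℂ[X][X] := N.charpoly with hq
  have hqmap : ∀ z : ℂ, q.map (evalRingHom z) = ((1 - z) • A + z • Lam n).charpoly := by
    intro z
    rw [hq, ← Matrix.charpoly_map, hmap]
  set R : ℂ[X] := resultant q (derivative q) n (n - 1) with hR
  have hReval : ∀ z : ℂ, R.eval z =
      resultant ((1 - z) • A + z • Lam n).charpoly (derivative ((1 - z) • A + z • Lam n).charpoly)
        n (n - 1) := by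
    intro z
    rw [← hqmap, derivative_map, resultant_map_map]
    rfl
  have hdeg : ∀ M : Matrix (Fin n) (Fin n) ℂ, M.charpoly.natDegree = n := by
    intro M; rw [Matrix.charpoly_natDegree_eq_dim, Fintype.card_fin]
  have hdeg' : ∀ M : Matrix (Fin n) (Fin n) ℂ, (derivative M.charpoly).natDegree = n - 1 := by
    intro M
    rw [natDegree_derivative, hdeg]
  have hres : ∀ M : Matrix (Fin n) (Fin n) ℂ,
      resultant M.charpoly (derivative M.charpoly) n (n - 1) ≠ 0 ↔ M.charpoly.Separable := by
    intro M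
    have h1 : resultant M.charpoly (derivative M.charpoly) n (n - 1) =
        resultant M.charpoly (derivative M.charpoly) := by
      rw [hdeg M, hdeg' M]
    rw [h1, Ne, resultant_eq_zero_iff]
    constructor
    · intro h
      by_contra hc
      exact h ⟨Or.inl (Matrix.charpoly_monic M).ne_zero, hc⟩
    · intro h h2
      exact h2.2 h
  have hR0 : R ≠ 0 := by
    intro h
    have h1 := hReval 1
    rw [h, eval_zero] at h1
    have h2 : ((1 - (1 : ℂ)) • A + (1 : ℂ) • Lam n) = Lam n := by simp
    rw [h2] at h1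
    refine (hres (Lam n)).2 ?_ h1.symm
    unfold Lam
    rw [Matrix.charpoly_diagonal, separable_prod_X_sub_C_iff]
    intro a b hab
    have : ((a : ℕ) : ℂ) = ((b : ℕ) : ℂ) := by simpa using hab
    exact Fin.ext (by exact_mod_cast this)
  -- choose `ε`
  have hinf : (Set.Ioo (0 : ℝ) η).Infinite := Set.Ioo_infinite hη
  have hfin : {ε : ℝ | R.IsRoot (ε : ℂ)}.Finite := by
    refine Set.Finite.preimage (f := fun ε : ℝ => (ε : ℂ)) (Complex.ofReal_injective.injOn) ?_
      (s := {z : ℂ | R.IsRoot z})
    exact R.finite_setOfPred_isRoot hR0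
  obtain ⟨ε, hε, hε2⟩ := (hinf.sdiff hfin).nonempty
  refine ⟨ε, hε.1, hε.2, ?_⟩
  refine diag_of_separable _ ((hres _).1 ?_)
  rw [← hReval]
  exact hε2

end Pool.Agent.H63N.NR
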