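import Mathlib

/-! Two scalar integrals. -/

namespace Pool.Agent.H63N.NR

open Complex MeasureTheory Set Filter Topology

theorem laplace {z : ℂ} (hz : 0 < z.re) :
    IntegrableOn (fun r : ℝ => cexp (-(z * r))) (Ioi 0) ∧
      ∫ r in Ioi (0 : ℝ), cexp (-(z * r)) = 1 / z := by
  constructor
  · have := integrableOn_exp_mul_complex_Ioi (a := -z) (by simpa using hz) 0
    simpa using this
  · have := integral_exp_mul_complex_Ioi (a := -z) (by simpa using hz) 0
    simpa using this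

theorem intS (t : ℝ) (ht : 0 < t) (ht1 : t < 1) {a : ℝ} (ha : 0 < a) :
    IntegrableOn (fun s : ℝ => s ^ (t - 1) * (1 / (s + a))) (Ioi 0) := by
  have h1 : IntegrableOn (fun s : ℝ => s ^ (t - 1)) (Ioc 0 1) := by
    have := (intervalIntegral.intervalIntegrable_rpow' (a := 0) (b := 1) (r := t - 1) (by linarith))
    rwa [intervalIntegrable_iff_integrableOn_Ioc_of_le zero_le_one] at this
  have h2 : IntegrableOn (fun s : ℝ => s ^ (t - 2)) (Ioi 1) :=
    integrableOn_Ioi_rpow_of_lt (by linarith) one_pos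
  rw [← Ioc_union_Ioi_eq_Ioi zero_le_one]
  refine IntegrableOn.union ?_ ?_
  · refine Integrable.mono' (h1.const_mul (1 / a)) ?_ ?_
    · refine Measurable.aestronglyMeasurable ?_
      fun_prop
    · refine (ae_restrict_iff' measurableSet_Ioc).2 (ae_of_all _ fun s hs => ?_)
      have hs0 : 0 < s := hs.1
      rw [Real.norm_of_nonneg (by positivity), mul_comm]
      gcongr
      linarith
  · refine Integrable.mono' h2 ?_ ?_
    · refine Measurable.aestronglyMeasurable ?_
      fun_prop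
    · refine (ae_restrict_iff' measurableSet_Ioi).2 (ae_of_all _ fun s hs => ?_)
      have hs0 : 0 < s := lt_trans one_pos hs
      rw [Real.norm_of_nonneg (by positivity)]
      have e : s ^ (t - 2) = s ^ (t - 1) * (1 / s) := by
        rw [show t - 2 = (t - 1) - 1 by ring, Real.rpow_sub hs0, Real.rpow_one]; ring
      rw [e]
      gcongr
      linarith

theorem intC (t : ℝ) (ht : 0 < t) (ht1 : t < 1) {z : ℂ} (hz : 0 < z.re) :
    IntegrableOn (fun s : ℝ => ((s ^ (t - 1) : ℝ) : ℂ) * (1 / (s + z))) (Ioi 0) := by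
  refine Integrable.mono' (intS t ht ht1 hz) ?_ ?_
  · refine Measurable.aestronglyMeasurable ?_
    fun_prop
  · refine (ae_restrict_iff' measurableSet_Ioi).2 (ae_of_all _ fun s hs => ?_)
    have hs0 : (0 : ℝ) < s := hs
    rw [norm_mul, Complex.norm_real, Real.norm_of_nonneg (by positivity), norm_div, norm_one]
    have h1 : s + z.re ≤ ‖(s : ℂ) + z‖ := by
      have := Complex.re_le_norm ((s : ℂ) + z)
      simpa using this
    gcongr

theorem stieltjes_real (t : ℝ) (ht : 0 < t) (ht1 : t < 1) {x : ℝ} (hx : 0 < x) :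
    ∫ s in Ioi (0 : ℝ), ((s ^ (t - 1) : ℝ) : ℂ) * (1 / (s + (x : ℂ))) =
      (Real.pi / Real.sin (Real.pi * t) : ℝ) * (x : ℂ) ^ ((t : ℂ) - 1) := by
  obtain ⟨z, hzx⟩ : ∃ z : ℂ, z = (x : ℂ) := ⟨_, rfl⟩
  have hz : 0 < z.re := by rw [hzx]; simpa using hx
  rw [← hzx]
  -- write `1 / (s + z)` as a Laplace integral and swap
  have e1 : ∫ s in Ioi (0 : ℝ), ((s ^ (t - 1) : ℝ) : ℂ) * (1 / (s + z)) =
      ∫ s in Ioi (0 : ℝ), ∫ r in Ioi (0 : ℝ), ((s ^ (t - 1) : ℝ) : ℂ) * cexp (-(((s : ℂ) + z) * r)) := by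
    refine setIntegral_congr_fun measurableSet_Ioi fun s hs => ?_
    have hs0 : (0 : ℝ) < s := hs
    have hsz : 0 < ((s : ℂ) + z).re := by simpa using by positivity
    rw [integral_const_mul, (laplace hsz).2]
  have hint : Integrable (Function.uncurry fun (s r : ℝ) =>
      ((s ^ (t - 1) : ℝ) : ℂ) * cexp (-(((s : ℂ) + z) * r)))
      ((volume.restrict (Ioi (0 : ℝ))).prod (volume.restrict (Ioi (0 : ℝ)))) := by
    rw [integrable_prod_iff]
    · constructor
      · refine (ae_restrict_iff' measurableSet_Ioi).2 (ae_of_all _ fun s hs => ?_)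
        have hs0 : (0 : ℝ) < s := hs
        have hsz : 0 < ((s : ℂ) + z).re := by simpa using by positivity
        exact (laplace hsz).1.const_mul ((s ^ (t - 1) : ℝ) : ℂ)
      · refine (intS t ht ht1 hz).congr ?_
        refine (ae_restrict_iff' measurableSet_Ioi).2 (ae_of_all _ fun s hs => ?_)
        have hs0 : (0 : ℝ) < s := hs
        have hsz : 0 < s + z.re := by positivity
        have e : ∀ r : ℝ, ‖Function.uncurry (fun (s r : ℝ) =>
            ((s ^ (t - 1) : ℝ) : ℂ) * cexp (-(((s : ℂ) + z) * r))) (s, r)‖ =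
            s ^ (t - 1) * Real.exp (-(s + z.re) * r) := by
          intro r
          simp only [Function.uncurry_apply_pair]
          rw [norm_mul, Complex.norm_real, Real.norm_of_nonneg (by positivity), Complex.norm_exp]
          congr 2
          simp
          ring
        simp_rw [e]
        rw [integral_const_mul, integral_exp_mul_Ioi (by linarith), mul_zero, Real.exp_zero,
          neg_div_neg_eq]
    · refine Measurable.aestronglyMeasurable ?_
      simp only [Function.uncurry_def]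
      fun_prop
  rw [e1, integral_integral_swap hint]
  have e2 : ∀ r ∈ Ioi (0 : ℝ), ∫ s in Ioi (0 : ℝ), ((s ^ (t - 1) : ℝ) : ℂ) *
      cexp (-(((s : ℂ) + z) * r)) = (Real.Gamma t : ℂ) *
        ((r : ℂ) ^ ((1 - (t : ℂ)) - 1) * cexp (-(z * r))) := by
    intro r hr
    have hr0 : (0 : ℝ) < r := hr
    have e3 : ∀ s : ℝ, ((s ^ (t - 1) : ℝ) : ℂ) * cexp (-(((s : ℂ) + z) * r)) =
        cexp (-(z * r)) * ((s ^ (t - 1) * Real.exp (-(r * s)) : ℝ) : ℂ) := by
      intro s
      push_cast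
      rw [show -(((s : ℂ) + z) * r) = -(z * r) + -(r * s) by ring, Complex.exp_add]
      ring
    simp_rw [e3]
    rw [integral_const_mul, integral_complex_ofReal, Real.integral_rpow_mul_exp_neg_mul_Ioi ht hr0]
    have e4 : (((1 / r) ^ t * Real.Gamma t : ℝ) : ℂ) = (Real.Gamma t : ℂ) *
        (r : ℂ) ^ ((1 - (t : ℂ)) - 1) := by
      rw [mul_comm, ofReal_mul]
      congr 1
      rw [show (1 - (t : ℂ)) - 1 = ((-t : ℝ) : ℂ) by push_cast; ring, ← ofReal_cpow hr0.le,
        one_div, Real.inv_rpow hr0.le, Real.rpow_neg hr0.le]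
    rw [e4]; ring
  rw [setIntegral_congr_fun measurableSet_Ioi e2, integral_const_mul, hzx,
    Complex.integral_cpow_mul_exp_neg_mul_Ioi (a := 1 - (t : ℂ)) (by simpa using ht1) hx]
  have e5 := Real.Gamma_mul_Gamma_one_sub t
  have e6 : Complex.Gamma (1 - (t : ℂ)) = ((Real.Gamma (1 - t) : ℝ) : ℂ) := by
    rw [← Complex.Gamma_ofReal]; push_cast; rfl
  have e7 : (1 / (x : ℂ)) ^ (1 - (t : ℂ)) = (x : ℂ) ^ ((t : ℂ) - 1) := by
    rw [one_div, Complex.inv_cpow _ _ (by rw [Complex.arg_ofReal_of_nonneg hx.le]; exact Real.pi_ne_zero.symm),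
      ← Complex.cpow_neg]
    congr 1; ring
  rw [e6, ← e5, e7]
  push_cast
  ring

theorem hasDeriv_stieltjes (t : ℝ) (ht : 0 < t) (ht1 : t < 1) {z : ℂ} (hz : 0 < z.re) :
    HasDerivAt (fun z : ℂ => ∫ s in Ioi (0 : ℝ), ((s ^ (t - 1) : ℝ) : ℂ) * (1 / (s + z)))
      (∫ s in Ioi (0 : ℝ), ((s ^ (t - 1) : ℝ) : ℂ) * (-1 / (s + z) ^ 2)) z := by
  have hball : ∀ w ∈ Metric.ball z (z.re / 2), z.re / 2 < w.re := by
    intro w hw
    rw [Metric.mem_ball, dist_eq_norm] at hw
    have := Complex.abs_re_le_norm (w - z)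
    rw [sub_re] at this
    have := abs_le.1 this
    linarith [this.1]
  refine (hasDerivAt_integral_of_dominated_loc_of_deriv_le (μ := volume.restrict (Ioi (0 : ℝ)))
    (F := fun (z : ℂ) (s : ℝ) => ((s ^ (t - 1) : ℝ) : ℂ) * (1 / (s + z)))
    (F' := fun (z : ℂ) (s : ℝ) => ((s ^ (t - 1) : ℝ) : ℂ) * (-1 / (s + z) ^ 2))
    (bound := fun s : ℝ => (2 / z.re) * (s ^ (t - 1) * (1 / (s + z.re / 2))))
    (Metric.ball_mem_nhds z (by positivity : (0 : ℝ) < z.re / 2)) ?_ ?_ ?_ ?_ ?_ ?_).2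
  · refine Eventually.of_forall fun w => Measurable.aestronglyMeasurable ?_
    fun_prop
  · exact intC t ht ht1 hz
  · refine Measurable.aestronglyMeasurable ?_
    fun_prop
  · refine (ae_restrict_iff' measurableSet_Ioi).2 (ae_of_all _ fun s hs w hw => ?_)
    have hs0 : (0 : ℝ) < s := hs
    have hw' := hball w hw
    rw [norm_mul, Complex.norm_real, Real.norm_of_nonneg (by positivity), norm_div, norm_neg,
      norm_one, norm_pow]
    have h1 : s + z.re / 2 ≤ ‖(s : ℂ) + w‖ := by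
      have := Complex.re_le_norm ((s : ℂ) + w)
      simp only [add_re, ofReal_re] at this
      linarith
    have h2 : z.re / 2 ≤ ‖(s : ℂ) + w‖ := by linarith
    have h3 : 1 / ‖(s : ℂ) + w‖ ^ 2 ≤ (2 / z.re) * (1 / (s + z.re / 2)) := by
      have e : (2 / z.re) * (1 / (s + z.re / 2)) = 1 / ((z.re / 2) * (s + z.re / 2)) := by
        field_simp
      rw [e, sq]
      gcongr
    calc s ^ (t - 1) * (1 / ‖(s : ℂ) + w‖ ^ 2) ≤ s ^ (t - 1) * ((2 / z.re) * (1 / (s + z.re / 2))) := by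
          gcongr
      _ = _ := by ring
  · exact (intS t ht ht1 (by positivity : (0 : ℝ) < z.re / 2)).const_mul _
  · refine (ae_restrict_iff' measurableSet_Ioi).2 (ae_of_all _ fun s hs w hw => ?_)
    have hs0 : (0 : ℝ) < s := hs
    have hw' := hball w hw
    have hne : (s : ℂ) + w ≠ 0 := by
      intro h
      have := congrArg Complex.re h
      simp at this
      linarith
    have h1 : HasDerivAt (fun w : ℂ => (s : ℂ) + w) 1 w := (hasDerivAt_id w).const_add _
    have h2 := (h1.inv hne).const_mul ((s ^ (t - 1) : ℝ) : ℂ)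
    simpa [one_div] using h2

theorem stieltjes (t : ℝ) (ht : 0 < t) (ht1 : t < 1) {z : ℂ} (hz : 0 < z.re) :
    ∫ s in Ioi (0 : ℝ), ((s ^ (t - 1) : ℝ) : ℂ) * (1 / (s + z)) =
      (Real.pi / Real.sin (Real.pi * t) : ℝ) * z ^ ((t : ℂ) - 1) := by
  set U : Set ℂ := {z : ℂ | 0 < z.re} with hU
  have hUo : IsOpen U := isOpen_lt continuous_const Complex.continuous_re
  have hUc : IsPreconnected U := (convex_halfSpace_re_gt 0).isPreconnected
  have hf : AnalyticOnNhd ℂ (fun z : ℂ => ∫ s in Ioi (0 : ℝ),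
      ((s ^ (t - 1) : ℝ) : ℂ) * (1 / (s + z))) U := by
    refine DifferentiableOn.analyticOnNhd (fun w hw => ?_) hUo
    exact (hasDeriv_stieltjes t ht ht1 hw).differentiableAt.differentiableWithinAt
  have hg : AnalyticOnNhd ℂ (fun z : ℂ =>
      ((Real.pi / Real.sin (Real.pi * t) : ℝ) : ℂ) * z ^ ((t : ℂ) - 1)) U := by
    refine DifferentiableOn.analyticOnNhd (fun w hw => ?_) hUo
    refine DifferentiableAt.differentiableWithinAt ?_
    refine DifferentiableAt.const_mul ?_ _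
    exact (differentiableAt_id).cpow_const (Or.inl hw)
  have h1 : (1 : ℂ) ∈ U := by simp [hU]
  refine hf.eqOn_of_preconnected_of_frequently_eq hg hUc h1 ?_ hz
  rw [frequently_iff_seq_forall]
  refine ⟨fun n : ℕ => ((1 + 1 / ((n : ℝ) + 1) : ℝ) : ℂ), ?_, fun n => ?_⟩
  · rw [tendsto_nhdsWithin_iff]
    constructor
    · have h2 : Tendsto (fun n : ℕ => (1 + 1 / ((n : ℝ) + 1) : ℝ)) atTop (𝓝 (1 + 0)) :=
        tendsto_one_div_add_atTop_nhds_zero_nat.const_add 1
      have h3 := (Complex.continuous_ofReal.tendsto (1 + 0 : ℝ)).comp h2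
      rw [add_zero, ofReal_one] at h3
      exact h3
    · refine Eventually.of_forall fun n => ?_
      simp only [mem_compl_iff, mem_singleton_iff]
      intro h
      have h4 : (1 + 1 / ((n : ℝ) + 1) : ℝ) = 1 := by exact_mod_cast h
      have h5 : (0 : ℝ) < 1 / ((n : ℝ) + 1) := by positivity
      linarith
  · exact stieltjes_real t ht ht1 (x := 1 + 1 / ((n : ℝ) + 1)) (by positivity)

theorem sq_lower {z : ℂ} (hz : 0 < z.re) (r : ℝ) :
    z.re / ‖z‖ * min (‖z‖ ^ 2) 1 * (1 + r ^ 2) ≤ ‖(r : ℂ) ^ 2 + z ^ 2‖ := by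
  have hz0 : 0 < ‖z‖ := lt_of_lt_of_le hz (Complex.re_le_norm z)
  have hn : ‖z‖ ^ 2 = z.re ^ 2 + z.im ^ 2 := by
    rw [← Complex.normSq_eq_norm_sq, Complex.normSq_apply]; ring
  have h1 : z.re / ‖z‖ * min (‖z‖ ^ 2) 1 * (1 + r ^ 2) ≤ z.re / ‖z‖ * (‖z‖ ^ 2 + r ^ 2) := by
    rw [mul_assoc]
    refine mul_le_mul_of_nonneg_left ?_ (by positivity)
    have a1 := min_le_left (‖z‖ ^ 2) 1
    have a2 := min_le_right (‖z‖ ^ 2) 1
    nlinarith [sq_nonneg r]
  refine h1.trans ?_
  refine abs_le_of_sq_le_sq' ?_ (norm_nonneg _) |>.2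
  have h2 : ‖(r : ℂ) ^ 2 + z ^ 2‖ ^ 2 = (r ^ 2 + z.re ^ 2 - z.im ^ 2) ^ 2 + 4 * z.re ^ 2 * z.im ^ 2 := by
    rw [← Complex.normSq_eq_norm_sq, Complex.normSq_apply]
    simp [pow_two]
    ring
  rw [h2, mul_pow, div_pow, div_mul_eq_mul_div, div_le_iff₀ (by positivity), hn]
  have hpos : 0 < z.re ^ 2 + z.im ^ 2 := by positivity
  have : (z.re ^ 2 + z.im ^ 2) * ((r ^ 2 + z.re ^ 2 - z.im ^ 2) ^ 2 + 4 * z.re ^ 2 * z.im ^ 2) -
      z.re ^ 2 * (z.re ^ 2 + z.im ^ 2 + r ^ 2) ^ 2 =
      z.im ^ 2 * (z.re ^ 2 + z.im ^ 2 - r ^ 2) ^ 2 := by ring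
  nlinarith [mul_nonneg (sq_nonneg z.im) (sq_nonneg (z.re ^ 2 + z.im ^ 2 - r ^ 2))]

theorem intQ {z : ℂ} (hz : 0 < z.re) :
    IntegrableOn (fun r : ℝ => 1 / ((r : ℂ) ^ 2 + z ^ 2)) (Ioi 0) := by
  have hz0 : 0 < ‖z‖ := lt_of_lt_of_le hz (Complex.re_le_norm z)
  set c : ℝ := z.re / ‖z‖ * min (‖z‖ ^ 2) 1 with hc
  have hcpos : 0 < c := by positivity
  refine Integrable.mono' ((integrable_inv_one_add_sq.const_mul c⁻¹).integrableOn) ?_ ?_
  · refine Measurable.aestronglyMeasurable ?_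
    fun_prop
  · refine ae_of_all _ fun r => ?_
    rw [norm_div, norm_one, ← mul_inv, one_div]
    refine inv_anti₀ (by positivity) (sq_lower hz r)

theorem quad {z : ℂ} (hz : 0 < z.re) :
    ∫ r in Ioi (0 : ℝ), 1 / ((r : ℂ) ^ 2 + z ^ 2) = Real.pi / (2 * z) := by
  have hz0 : z ≠ 0 := by rintro rfl; simp at hz
  have hp : ∀ r : ℝ, z + I * r ∈ slitPlane := fun r => Or.inl (by simpa using hz)
  have hm : ∀ r : ℝ, z - I * r ∈ slitPlane := fun r => Or.inl (by simpa using hz)
  have hd : ∀ r : ℝ, HasDerivAt (fun r : ℝ => (1 / (2 * I * z)) *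
      (Complex.log (z + I * r) - Complex.log (z - I * r))) (1 / ((r : ℂ) ^ 2 + z ^ 2)) r := by
    intro r
    have a1 : HasDerivAt (fun r : ℝ => z + I * (r : ℂ)) I r := by
      have := ((Complex.ofRealCLM.hasDerivAt (x := r)).const_mul I).const_add z
      simpa using this
    have a2 : HasDerivAt (fun r : ℝ => z - I * (r : ℂ)) (-I) r := by
      have := ((Complex.ofRealCLM.hasDerivAt (x := r)).const_mul I).const_sub z
      simpa using this
    have b1 := a1.clog_real (hp r)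
    have b2 := a2.clog_real (hm r)
    refine ((b1.sub b2).const_mul (1 / (2 * I * z))).congr_deriv ?_
    have n1 : z + I * r ≠ 0 := slitPlane_ne_zero (hp r)
    have n2 : z - I * r ≠ 0 := slitPlane_ne_zero (hm r)
    have n3 : (r : ℂ) ^ 2 + z ^ 2 = (z + I * r) * (z - I * r) := by
      ring_nf; rw [I_sq]; ring
    rw [n3]
    field_simp
    ring
  have hlim : Tendsto (fun r : ℝ => (1 / (2 * I * z)) *
      (Complex.log (z + I * r) - Complex.log (z - I * r))) atTop (𝓝 ((1 / (2 * I * z)) * (I * Real.pi))) := by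
    refine Tendsto.const_mul _ ?_
    have h1 : ∀ᶠ r : ℝ in atTop, Complex.log (z + I * r) - Complex.log (z - I * r) =
        Complex.log (z / r + I) - Complex.log (z / r - I) := by
      filter_upwards [eventually_gt_atTop 0] with r hr
      have hr' : (r : ℂ) ≠ 0 := by exact_mod_cast hr.ne'
      have e1 : z + I * r = (r : ℂ) * (z / r + I) := by field_simp
      have e2 : z - I * r = (r : ℂ) * (z / r - I) := by field_simp
      have f1 : z / r + I ≠ 0 := by
        intro h; rw [h, mul_zero] at e1; exact slitPlane_ne_zero (hp r) e1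
      have f2 : z / r - I ≠ 0 := by
        intro h; rw [h, mul_zero] at e2; exact slitPlane_ne_zero (hm r) e2
      rw [e1, e2, Complex.log_ofReal_mul hr f1, Complex.log_ofReal_mul hr f2]
      ring
    have h2 : Tendsto (fun r : ℝ => z / (r : ℂ)) atTop (𝓝 0) := by
      have : Tendsto (fun r : ℝ => ((r⁻¹ : ℝ) : ℂ)) atTop (𝓝 ((0 : ℝ) : ℂ)) :=
        (Complex.continuous_ofReal.tendsto 0).comp tendsto_inv_atTop_zero
      have := this.const_mul z
      simpa [div_eq_mul_inv] using this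
    have h3 : Tendsto (fun r : ℝ => Complex.log (z / r + I) - Complex.log (z / r - I)) atTop
        (𝓝 (Complex.log (0 + I) - Complex.log (0 - I))) := by
      refine Tendsto.sub ?_ ?_
      · refine Tendsto.clog (h2.add_const I) ?_
        exact Or.inr (by simp)
      · refine Tendsto.clog (h2.sub_const I) ?_
        exact Or.inr (by simp)
    have h4 : Complex.log (0 + I) - Complex.log (0 - I) = I * Real.pi := by
      rw [zero_add, zero_sub, Complex.log_I, Complex.log_neg_I]; ring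
    rw [h4] at h3
    exact h3.congr' (h1.mono fun r hr => hr.symm)
  have := integral_Ioi_of_hasDerivAt_of_tendsto (hd 0).continuousAt.continuousWithinAt
    (fun r _ => hd r) (intQ hz) hlim
  rw [this]
  simp
  field_simp
  rw [I_sq]; ring

end Pool.Agent.H63N.NR
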