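import Mathlib

/-! The operator inequality behind the numerical radius inequality for fractional powers. -/

namespace Pool.Agent.H63N.NR

open Complex

variable {V : Type*} [NormedAddCommGroup V] [InnerProductSpace ℂ V]

theorem tlem (D : V →ₗ[ℂ] V) (hD : ∀ v, 0 ≤ (inner ℂ v (D v)).re)
    (hC : ∀ v, 0 ≤ ‖v‖ ^ 2 + (inner ℂ v (D (D v))).re) (s : ℝ) (hs : 0 < s) (h y : V)
    (hy : y = ((2 * s + 1 : ℝ) : ℂ) • D h + (s : ℂ) • h) :
    0 ≤ (inner ℂ y (((2 * s + 1 : ℝ) : ℂ) • y + D (D y) +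
      ((2 * (s + 1) ^ 2 : ℝ) : ℂ) • D (D h))).re := by
  set m : ℝ := 2 * s + 1 with hm
  have hmpos : 0 < m := by positivity
  have hr := hD h
  have hp := hD y
  have hq := hC y
  have e1 : D y = (m : ℂ) • D (D h) + (s : ℂ) • D h := by rw [hy]; simp
  have e2 : (inner ℂ y (D y)).re = m * (inner ℂ y (D (D h))).re + s * (inner ℂ y (D h)).re := by
    conv_lhs => rw [e1]
    rw [inner_add_right, inner_smul_right, inner_smul_right, add_re, re_ofReal_mul, re_ofReal_mul]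
  have e3 : (inner ℂ y (D h)).re = m * ‖D h‖ ^ 2 + s * (inner ℂ h (D h)).re := by
    rw [hy, inner_add_left, inner_smul_left, inner_smul_left, conj_ofReal, conj_ofReal, add_re,
      re_ofReal_mul, re_ofReal_mul]
    congr 2
    have := inner_self_eq_norm_sq (𝕜 := ℂ) (D h)
    simpa using this
  have e4 : ‖y‖ ^ 2 = m ^ 2 * ‖D h‖ ^ 2 + s ^ 2 * ‖h‖ ^ 2 + 2 * m * s * (inner ℂ h (D h)).re := by
    have h1 : (inner ℂ y h).re = m * (inner ℂ h (D h)).re + s * ‖h‖ ^ 2 := by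
      rw [hy, inner_add_left, inner_smul_left, inner_smul_left, conj_ofReal, conj_ofReal, add_re,
        re_ofReal_mul, re_ofReal_mul]
      congr 2
      · exact inner_re_symm (𝕜 := ℂ) _ _
      · have := inner_self_eq_norm_sq (𝕜 := ℂ) h
        simpa using this
    have h2 : ‖y‖ ^ 2 = (inner ℂ y y).re := by
      have := inner_self_eq_norm_sq (𝕜 := ℂ) y
      simpa using this.symm
    have h3 : (inner ℂ y y).re = m * (inner ℂ y (D h)).re + s * (inner ℂ y h).re := by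
      have h4 : (inner ℂ y y).re = (inner ℂ y ((m : ℂ) • D h + (s : ℂ) • h)).re :=
        congrArg (fun v => (inner ℂ y v : ℂ).re) hy
      rw [inner_add_right, inner_smul_right, inner_smul_right, add_re, re_ofReal_mul,
        re_ofReal_mul] at h4
      exact h4
    rw [h2, h3, h1, e3]; ring
  have e5 : (inner ℂ y ((m : ℂ) • y + D (D y) + ((2 * (s + 1) ^ 2 : ℝ) : ℂ) • D (D h))).re =
      m * ‖y‖ ^ 2 + (inner ℂ y (D (D y))).re + 2 * (s + 1) ^ 2 * (inner ℂ y (D (D h))).re := by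
    rw [inner_add_right, inner_add_right, inner_smul_right, inner_smul_right, add_re, add_re,
      re_ofReal_mul, re_ofReal_mul]
    congr 3
    have := inner_self_eq_norm_sq (𝕜 := ℂ) y
    simpa using this
  rw [e5]
  have hb : 0 ≤ ‖h‖ ^ 2 := by positivity
  have ha : 0 ≤ ‖D h‖ ^ 2 := by positivity
  set a := ‖D h‖ ^ 2
  set b := ‖h‖ ^ 2
  set r := (inner ℂ h (D h)).re
  set p := (inner ℂ y (D y)).re
  set q := (inner ℂ y (D (D y))).re
  set w := (inner ℂ y (D (D h))).re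
  have e6 : m * w = p - s * (m * a + s * r) := by rw [e2, e3]; ring
  have key : 0 ≤ m * (m * ‖y‖ ^ 2 + q + 2 * (s + 1) ^ 2 * w) := by
    have : m * (m * ‖y‖ ^ 2 + q + 2 * (s + 1) ^ 2 * w) =
        m * (‖y‖ ^ 2 + q) + 2 * (s + 1) ^ 2 * p + 2 * s * m * a * (s * (3 * s + 2)) +
          2 * s ^ 3 * m * b + 2 * s ^ 2 * r * (7 * s ^ 2 + 6 * s + 1) := by
      have : m * (m * ‖y‖ ^ 2 + q + 2 * (s + 1) ^ 2 * w) =
        m * (‖y‖ ^ 2 + q) + m * (m - 1) * ‖y‖ ^ 2 + 2 * (s + 1) ^ 2 * (m * w) := by ring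
      rw [this, e6, e4, hm]; ring
    rw [this]; positivity
  exact nonneg_of_mul_nonneg_right key hmpos

theorem key (D : V →ₗ[ℂ] V) (hD : ∀ v, 0 ≤ (inner ℂ v (D v)).re)
    (hC : ∀ v, 0 ≤ ‖v‖ ^ 2 + (inner ℂ v (D (D v))).re)
    (x : V) (hx : ‖x‖ = 1) (hx1 : inner ℂ x (D (D x)) = (1 : ℂ))
    (hx2 : ∀ y, inner ℂ x (y - D (D y)) = - (inner ℂ (x - D (D x)) y : ℂ))
    (s : ℝ) (hs : 0 < s) (g : V)
    (hg : x = (s : ℂ) • g + ((s : ℂ) + 1) • D g + D (D g)) :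
    1 / (s + 1) ≤ (inner ℂ x (D (D g) + D (D (D g)))).re := by
  set h : V := g - D g with hh
  set y : V := ((2 * s + 1 : ℝ) : ℂ) • D h + (s : ℂ) • h with hy
  have T := tlem D hD hC s hs h y hy
  have eu : ((2 * s + 1 : ℝ) : ℂ) • y + D (D y) + ((2 * (s + 1) ^ 2 : ℝ) : ℂ) • D (D h) =
      ((2 * s + 1 : ℝ) : ℂ) • (x - D (D x)) := by
    rw [hy, hh, hg]
    simp only [map_add, map_sub, map_smul, smul_add, smul_sub, smul_smul]
    push_cast
    module
  rw [eu, inner_smul_right, re_ofReal_mul] at T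
  have T' : 0 ≤ (inner ℂ y (x - D (D x))).re := nonneg_of_mul_nonneg_right T (by positivity)
  have hK : (0 : ℝ) < 2 * (s + 1) ^ 2 := by positivity
  have e1 : ((2 * (s + 1) ^ 2 : ℝ) : ℂ) • ((1 / ((s : ℂ) + 1)) • x - (D (D g) + D (D (D g)))) =
      ((2 * s + 1 : ℝ) : ℂ) • (x - D (D x)) + (y - D (D y)) := by
    have hs1 : (s : ℂ) + 1 ≠ 0 := by
      have : ((s + 1 : ℝ) : ℂ) ≠ 0 := by
        rw [Ne, ofReal_eq_zero]; positivity
      simpa using this
    rw [smul_sub, smul_smul]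
    have : ((2 * (s + 1) ^ 2 : ℝ) : ℂ) * (1 / ((s : ℂ) + 1)) = 2 * ((s : ℂ) + 1) := by
      push_cast; field_simp
    rw [this, hy, hh, hg]
    simp only [map_add, map_sub, map_smul, smul_add, smul_sub, smul_smul]
    push_cast
    module
  set P : V := D (D g) + D (D (D g)) with hP
  have e2 : (inner ℂ x (((2 * (s + 1) ^ 2 : ℝ) : ℂ) • ((1 / ((s : ℂ) + 1)) • x - P)) : ℂ).re =
      (inner ℂ x (((2 * s + 1 : ℝ) : ℂ) • (x - D (D x)) + (y - D (D y))) : ℂ).re :=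
    congrArg (fun v => (inner ℂ x v : ℂ).re) e1
  have hxx : (inner ℂ x x : ℂ) = 1 := by
    rw [inner_self_eq_norm_sq_to_K, hx]; simp
  have l1 : (inner ℂ x (((2 * (s + 1) ^ 2 : ℝ) : ℂ) • ((1 / ((s : ℂ) + 1)) • x - P)) : ℂ).re =
      2 * (s + 1) ^ 2 * (1 / (s + 1) - (inner ℂ x P : ℂ).re) := by
    rw [inner_smul_right, re_ofReal_mul, inner_sub_right, inner_smul_right, sub_re, hxx, mul_one]
    congr 2
    have : (1 : ℂ) / ((s : ℂ) + 1) = ((1 / (s + 1) : ℝ) : ℂ) := by push_cast; ring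
    rw [this, ofReal_re]
  have l2 : (inner ℂ x (((2 * s + 1 : ℝ) : ℂ) • (x - D (D x)) + (y - D (D y))) : ℂ).re =
      - (inner ℂ y (x - D (D x)) : ℂ).re := by
    rw [inner_add_right, inner_smul_right, hx2 y, inner_sub_right, hxx, hx1]
    simp only [sub_self, mul_zero, zero_add, neg_re]
    congr 1
    exact inner_re_symm (𝕜 := ℂ) _ _
  rw [l1, l2] at e2
  have h3 : 2 * (s + 1) ^ 2 * (1 / (s + 1) - (inner ℂ x P : ℂ).re) ≤ 0 := by linarith
  by_contra hc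
  push Not at hc
  have := mul_pos hK (sub_pos.2 hc)
  linarith

end Pool.Agent.H63N.NR
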