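import Pool.Agent.H63N.NRDef
import Pool.Agent.H63N.NRKey
import Pool.Agent.H63N.NRInt

/-! The diagonalizable case. -/

namespace Pool.Agent.H63N.NR

open Matrix MeasureTheory Complex Set

variable {n : ℕ}

/-- `S diag(f) S⁻¹`. -/
noncomputable def Phi (S : Matrix (Fin n) (Fin n) ℂ) (f : Fin n → ℂ) : Matrix (Fin n) (Fin n) ℂ :=
  S * diagonal f * S⁻¹

theorem Phi_mul {S : Matrix (Fin n) (Fin n) ℂ} (hS : IsUnit S.det) (f g : Fin n → ℂ) :
    Phi S f * Phi S g = Phi S (fun k => f k * g k) := by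
  unfold Phi
  rw [show S * diagonal f * S⁻¹ * (S * diagonal g * S⁻¹) =
    S * diagonal f * (S⁻¹ * S) * diagonal g * S⁻¹ by simp only [Matrix.mul_assoc],
    Matrix.nonsing_inv_mul _ hS, Matrix.mul_one, Matrix.mul_assoc S, Matrix.diagonal_mul_diagonal]

theorem Phi_one {S : Matrix (Fin n) (Fin n) ℂ} (hS : IsUnit S.det) :
    Phi S (fun _ => 1) = 1 := by
  unfold Phi
  rw [Matrix.diagonal_one, Matrix.mul_one, Matrix.mul_nonsing_inv _ hS]

theorem Phi_add (S : Matrix (Fin n) (Fin n) ℂ) (f g : Fin n → ℂ) :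
    Phi S f + Phi S g = Phi S (fun k => f k + g k) := by
  unfold Phi
  rw [← Matrix.add_mul, ← Matrix.mul_add, Matrix.diagonal_add]

theorem Phi_smul (S : Matrix (Fin n) (Fin n) ℂ) (c : ℂ) (f : Fin n → ℂ) :
    c • Phi S f = Phi S (fun k => c * f k) := by
  unfold Phi
  rw [← Matrix.smul_mul, ← Matrix.mul_smul, ← Matrix.diagonal_smul]
  rfl

theorem Phi_inv {S : Matrix (Fin n) (Fin n) ℂ} (hS : IsUnit S.det) (f : Fin n → ℂ)
    (hf : ∀ k, f k ≠ 0) : (Phi S f)⁻¹ = Phi S (fun k => 1 / f k) := by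
  apply Matrix.inv_eq_right_inv
  rw [Phi_mul hS]
  have : (fun k => f k * (1 / f k)) = fun _ => (1 : ℂ) := by
    funext k; exact mul_one_div_cancel (hf k)
  rw [this, Phi_one hS]

theorem Phi_apply (S : Matrix (Fin n) (Fin n) ℂ) (f : Fin n → ℂ) (i j : Fin n) :
    Phi S f i j = ∑ k, S i k * f k * S⁻¹ k j := by
  unfold Phi
  rw [Matrix.mul_apply]
  refine Finset.sum_congr rfl fun k _ => ?_
  rw [Matrix.mul_diagonal]

/-- coefficients -/
noncomputable def coef (S : Matrix (Fin n) (Fin n) ℂ) (v : Fin n → ℂ) (k : Fin n) : ℂ :=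
  (∑ i, star (v i) * S i k) * ∑ j, S⁻¹ k j * v j

theorem form_Phi (S : Matrix (Fin n) (Fin n) ℂ) (f : Fin n → ℂ) (v : Fin n → ℂ) :
    form (Phi S f) v = ∑ k, coef S v k * f k := by
  unfold form coef
  simp only [Matrix.mulVec, dotProduct, Phi_apply, Finset.sum_mul, Finset.mul_sum]
  rw [Finset.sum_comm]
  calc ∑ j, ∑ i, ∑ k, star (v i) * (S i k * f k * S⁻¹ k j * v j)
      = ∑ j, ∑ k, ∑ i, star (v i) * (S i k * f k * S⁻¹ k j * v j) := by
        refine Finset.sum_congr rfl fun j _ => Finset.sum_comm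
    _ = ∑ k, ∑ j, ∑ i, star (v i) * (S i k * f k * S⁻¹ k j * v j) := Finset.sum_comm
    _ = _ := by
        refine Finset.sum_congr rfl fun k _ => ?_
        refine Finset.sum_congr rfl fun i _ => ?_
        refine Finset.sum_congr rfl fun j _ => ?_
        ring

theorem fracPow_Phi {S : Matrix (Fin n) (Fin n) ℂ} (hS : IsUnit S.det) (lam : Fin n → ℂ)
    (hlam : ∀ k, 0 < (lam k).re) (t : ℝ) (ht : 0 < t) (ht1 : t < 1) :
    fracPow (Phi S lam) t = Phi S (fun k => lam k ^ (t : ℂ)) := by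
  ext i j
  simp only [fracPow, Matrix.of_apply]
  have hsin : Real.sin (t * Real.pi) ≠ 0 := by
    refine (Real.sin_pos_of_pos_of_lt_pi (by positivity) ?_).ne'
    nlinarith [Real.pi_pos]
  have e1 : ∀ s ∈ Ioi (0 : ℝ), ((s ^ (t - 1) : ℝ) : ℂ) *
      (Phi S lam * ((s : ℂ) • (1 : Matrix (Fin n) (Fin n) ℂ) + Phi S lam)⁻¹) i j =
      ∑ k, (S i k * S⁻¹ k j * lam k) * (((s ^ (t - 1) : ℝ) : ℂ) * (1 / (s + lam k))) := by
    intro s hs
    have hs0 : (0 : ℝ) < s := hs
    have hne : ∀ k, (s : ℂ) + lam k ≠ 0 := by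
      intro k h
      have := congrArg Complex.re h
      simp at this
      linarith [hlam k]
    rw [← Phi_one hS, Phi_smul, Phi_add, Phi_inv hS _ (fun k => by simpa using hne k), Phi_mul hS,
      Phi_apply, Finset.mul_sum]
    refine Finset.sum_congr rfl fun k _ => ?_
    ring
  rw [setIntegral_congr_fun measurableSet_Ioi e1, integral_finsetSum _
    (fun k _ => ((intC t ht ht1 (hlam k)).const_mul _)), Finset.mul_sum, Phi_apply]
  refine Finset.sum_congr rfl fun k _ => ?_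
  rw [integral_const_mul, stieltjes t ht ht1 (hlam k)]
  have hl : lam k ≠ 0 := by
    intro h; have := hlam k; rw [h] at this; simp at this
  have e2 : lam k ^ (t : ℂ) = lam k * lam k ^ ((t : ℂ) - 1) := by
    rw [Complex.cpow_sub _ _ hl, Complex.cpow_one]
    field_simp
  rw [e2, show Real.pi * t = t * Real.pi by ring]
  have hpi : (Real.pi : ℂ) ≠ 0 := by exact_mod_cast Real.pi_ne_zero
  have hsin' : ((Real.sin (t * Real.pi) : ℝ) : ℂ) ≠ 0 := by exact_mod_cast hsin
  rw [Complex.ofReal_div, Complex.ofReal_div]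
  field_simp

end Pool.Agent.H63N.NR
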