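import Pool.Agent.H63N.NRDiag

/-! The diagonalizable case, continued. -/

namespace Pool.Agent.H63N.NR

open Matrix MeasureTheory Complex Set

theorem ext_lemma {V : Type*} [NormedAddCommGroup V] [InnerProductSpace ℂ V] (C : V →ₗ[ℂ] V)
    (hC : ∀ v, (inner ℂ v (C v) : ℂ).re ≤ ‖v‖ ^ 2) (x : V) (hx : ‖x‖ = 1)
    (hx1 : inner ℂ x (C x) = (1 : ℂ)) (y : V) :
    inner ℂ x (y - C y) = - (inner ℂ (x - C x) y : ℂ) := by
  have hL : ∀ z : V, 2 * (inner ℂ x z : ℂ).re - (inner ℂ x (C z) : ℂ).re - (inner ℂ z (C x) : ℂ).re = 0 := by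
    intro z
    set L := 2 * (inner ℂ x z : ℂ).re - (inner ℂ x (C z) : ℂ).re - (inner ℂ z (C x) : ℂ).re with hLdef
    set Q := ‖z‖ ^ 2 - (inner ℂ z (C z) : ℂ).re with hQ
    have hQ0 : 0 ≤ Q := by have := hC z; linarith
    have hmain : ∀ ε : ℝ, 0 ≤ ε * L + ε ^ 2 * Q := by
      intro ε
      have h1 := hC (x + (ε : ℂ) • z)
      have h2 : ‖x + (ε : ℂ) • z‖ ^ 2 = 1 + 2 * ε * (inner ℂ x z : ℂ).re + ε ^ 2 * ‖z‖ ^ 2 := by
        have := @norm_add_sq ℂ _ _ _ _ x ((ε : ℂ) • z)
        rw [this, hx, inner_smul_right, norm_smul, mul_pow]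
        simp
        ring
      have h3 : (inner ℂ (x + (ε : ℂ) • z) (C (x + (ε : ℂ) • z)) : ℂ).re =
          1 + ε * ((inner ℂ x (C z) : ℂ).re + (inner ℂ z (C x) : ℂ).re) +
            ε ^ 2 * (inner ℂ z (C z) : ℂ).re := by
        rw [map_add, map_smul, inner_add_left, inner_add_right, inner_add_right, inner_smul_left,
          inner_smul_right, inner_smul_right, inner_smul_left, hx1, conj_ofReal]
        simp only [add_re, re_ofReal_mul, one_re]
        ring
      rw [h2, h3] at h1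
      rw [hLdef, hQ]; linarith
    by_contra hne
    have h1 := hmain (-L / (2 * (Q + 1)))
    have h2 : -L / (2 * (Q + 1)) * L + (-L / (2 * (Q + 1))) ^ 2 * Q =
        - (L ^ 2 * (Q + 2) / (4 * (Q + 1) ^ 2)) := by
      field_simp
      ring
    rw [h2] at h1
    have h3 : 0 < L ^ 2 * (Q + 2) / (4 * (Q + 1) ^ 2) := by
      have : 0 < L ^ 2 := by positivity
      positivity
    linarith
  have hre : ∀ z : V, (inner ℂ x (z - C z) + inner ℂ (x - C x) z : ℂ).re = 0 := by
    intro z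
    have h := hL z
    rw [inner_sub_right, inner_sub_left, add_re, sub_re, sub_re]
    have h2 : (inner ℂ (C x) z : ℂ).re = (inner ℂ z (C x) : ℂ).re := inner_re_symm (𝕜 := ℂ) _ _
    rw [h2]; linarith
  have h1 := hre y
  have h2 := hre (I • y)
  have h3 : (inner ℂ x (I • y - C (I • y)) + inner ℂ (x - C x) (I • y) : ℂ) =
      I * (inner ℂ x (y - C y) + inner ℂ (x - C x) y) := by
    rw [map_smul, ← smul_sub, inner_smul_right, inner_smul_right]; ring
  rw [h3] at h2
  have h4 : (inner ℂ x (y - C y) + inner ℂ (x - C x) y : ℂ) = 0 := by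
    generalize (inner ℂ x (y - C y) + inner ℂ (x - C x) y : ℂ) = w at h1 h2
    apply Complex.ext
    · simpa using h1
    · simpa using h2
  exact eq_neg_of_add_eq_zero_left h4

variable {n : ℕ}

/-- the linear map of a matrix on Euclidean space -/
noncomputable def lin (M : Matrix (Fin n) (Fin n) ℂ) :
    EuclideanSpace ℂ (Fin n) →ₗ[ℂ] EuclideanSpace ℂ (Fin n) := Matrix.toLpLin 2 2 M

theorem lin_apply (M : Matrix (Fin n) (Fin n) ℂ) (v : EuclideanSpace ℂ (Fin n)) :
    lin M v = WithLp.toLp 2 (M *ᵥ v.ofLp) := by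
  unfold lin; rw [Matrix.toLpLin_apply]

theorem inner_lin (M : Matrix (Fin n) (Fin n) ℂ) (v : EuclideanSpace ℂ (Fin n)) :
    inner ℂ v (lin M v) = form M v.ofLp := by
  rw [lin_apply, PiLp.inner_apply]
  unfold form
  refine Finset.sum_congr rfl fun i _ => ?_
  simp [mul_comm]

theorem lin_mul (M N : Matrix (Fin n) (Fin n) ℂ) (v : EuclideanSpace ℂ (Fin n)) :
    lin M (lin N v) = lin (M * N) v := by
  simp only [lin_apply, Matrix.mulVec_mulVec]

theorem lin_add (M N : Matrix (Fin n) (Fin n) ℂ) (v : EuclideanSpace ℂ (Fin n)) :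
    lin (M + N) v = lin M v + lin N v := by
  unfold lin; rw [map_add]; rfl

theorem lin_smul (c : ℂ) (M : Matrix (Fin n) (Fin n) ℂ) (v : EuclideanSpace ℂ (Fin n)) :
    lin (c • M) v = c • lin M v := by
  unfold lin; rw [map_smul]; rfl

theorem lin_one (v : EuclideanSpace ℂ (Fin n)) : lin (1 : Matrix (Fin n) (Fin n) ℂ) v = v := by
  rw [lin_apply, Matrix.one_mulVec]

theorem sum_eq_norm (v : EuclideanSpace ℂ (Fin n)) : ∑ i, ‖v.ofLp i‖ ^ 2 = ‖v‖ ^ 2 := by
  rw [EuclideanSpace.norm_sq_eq]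

theorem form_lin (M : Matrix (Fin n) (Fin n) ℂ) (v : Fin n → ℂ) :
    form M v = inner ℂ (WithLp.toLp 2 v : EuclideanSpace ℂ (Fin n)) (lin M (WithLp.toLp 2 v)) := by
  rw [inner_lin]

/-- The square root is accretive after rotation. -/
theorem acc_sqrt {S : Matrix (Fin n) (Fin n) ℂ} (hS : IsUnit S.det) (lam : Fin n → ℂ)
    (hlam : ∀ k, 0 < (lam k).re) (hacc : ∀ v, 0 ≤ (form (Phi S lam) v).re) {z : ℂ} (hz : 0 < z.re)
    (v : Fin n → ℂ) :
    0 ≤ (form (Phi S fun k => cexp ((Complex.log (lam k) - Complex.log z) / 2)) v).re := by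
  have hz0 : z ≠ 0 := by rintro rfl; simp at hz
  have hzn : 0 < ‖z‖ := norm_pos_iff.2 hz0
  have hl : ∀ k, lam k ≠ 0 := fun k h => by have := hlam k; rw [h] at this; simp at this
  set w : ℂ := cexp (Complex.arg z * I) with hw
  have hzw : z = ‖z‖ * w := (Complex.norm_mul_exp_arg_mul_I z).symm
  have hw0 : w ≠ 0 := Complex.exp_ne_zero _
  have hwre : 0 < w.re := by
    have := hz; rw [hzw, re_ofReal_mul] at this
    exact pos_of_mul_pos_right this hzn.le
  set δ : Fin n → ℂ := fun k => cexp ((Complex.log (lam k) - Complex.log z) / 2) with hδ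
  set ν : Fin n → ℂ := fun k => w * δ k with hν
  have harg : ∀ u : ℂ, 0 < u.re → |Complex.arg u| < Real.pi / 2 := fun u hu =>
    Complex.abs_arg_lt_pi_div_two_iff.2 (Or.inl hu)
  have hνre : ∀ k, 0 < (ν k).re := by
    intro k
    have e : ν k = cexp (Complex.arg z * I + (Complex.log (lam k) - Complex.log z) / 2) := by
      show w * cexp ((Complex.log (lam k) - Complex.log z) / 2) = _
      rw [hw, ← Complex.exp_add]
    rw [e, Complex.exp_re]
    refine mul_pos (Real.exp_pos _) (Real.cos_pos_of_mem_Ioo ?_)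
    have e2 : (Complex.arg z * I + (Complex.log (lam k) - Complex.log z) / 2).im =
        (Complex.arg (lam k) + Complex.arg z) / 2 := by
      have : ((Complex.log (lam k) - Complex.log z) / 2).im =
          (Complex.arg (lam k) - Complex.arg z) / 2 := by
        rw [show (2 : ℂ) = ((2 : ℝ) : ℂ) by norm_num, Complex.div_ofReal_im, sub_im,
          Complex.log_im, Complex.log_im]
      rw [add_im, this]
      simp
      ring
    rw [e2]
    have h1 := abs_lt.1 (harg _ (hlam k))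
    have h2 := abs_lt.1 (harg _ hz)
    constructor <;> linarith [h1.1, h1.2, h2.1, h2.2]
  have hν2 : ∀ k, ν k ^ 2 = w ^ 2 / z * lam k := by
    intro k
    show (w * cexp ((Complex.log (lam k) - Complex.log z) / 2)) ^ 2 = _
    have h1 : cexp ((Complex.log (lam k) - Complex.log z) / 2) ^ 2 = lam k / z := by
      rw [← Complex.exp_nat_mul]
      have : ((2 : ℕ) : ℂ) * ((Complex.log (lam k) - Complex.log z) / 2) =
        Complex.log (lam k) - Complex.log z := by push_cast; ring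
      rw [this, Complex.exp_sub, Complex.exp_log (hl k), Complex.exp_log hz0]
    rw [mul_pow, h1]
    ring
  have hν0 : ∀ k, ν k ≠ 0 := fun k h => by have := hνre k; rw [h] at this; simp at this
  -- the pointwise inequality
  have hpt : ∀ r ∈ Ioi (0 : ℝ), 0 ≤ (∑ k, coef S v k * (lam k * (1 / ((r : ℂ) ^ 2 + ν k ^ 2)))).re := by
    intro r hr
    have hr0 : (0 : ℝ) < r := hr
    have hne : ∀ k, (r : ℂ) ^ 2 + ν k ^ 2 ≠ 0 := by
      intro k h
      have h1 := sq_lower (hνre k) r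
      rw [h, norm_zero] at h1
      have h2 : 0 < ‖ν k‖ := norm_pos_iff.2 (hν0 k)
      have h3 := hνre k
      have : 0 < (ν k).re / ‖ν k‖ * min (‖ν k‖ ^ 2) 1 * (1 + r ^ 2) := by positivity
      linarith
    rw [← form_Phi S (fun k => lam k * (1 / ((r : ℂ) ^ 2 + ν k ^ 2))) v, form_lin]
    set V : EuclideanSpace ℂ (Fin n) := WithLp.toLp 2 v with hV
    set g := lin (Phi S fun k => 1 / ((r : ℂ) ^ 2 + ν k ^ 2)) V with hg
    have e1 : lin (Phi S fun k => lam k * (1 / ((r : ℂ) ^ 2 + ν k ^ 2))) V = lin (Phi S lam) g := by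
      rw [hg, lin_mul, Phi_mul hS]
    have e2 : V = ((r : ℂ) ^ 2) • g + (w ^ 2 / z) • lin (Phi S lam) g := by
      rw [hg, lin_mul, Phi_mul hS, ← lin_smul, ← lin_smul, Phi_smul, Phi_smul, ← lin_add, Phi_add]
      have : (fun k => (r : ℂ) ^ 2 * (1 / ((r : ℂ) ^ 2 + ν k ^ 2)) +
          w ^ 2 / z * (lam k * (1 / ((r : ℂ) ^ 2 + ν k ^ 2)))) = fun _ => (1 : ℂ) := by
        funext k
        have := hne k
        rw [← mul_assoc, ← hν2 k, ← add_mul]
        exact mul_one_div_cancel this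
      rw [this, Phi_one hS, lin_one]
    rw [e1]
    have e3 : (inner ℂ V (lin (Phi S lam) g) : ℂ) =
        (r : ℂ) ^ 2 * inner ℂ g (lin (Phi S lam) g) +
          (starRingEnd ℂ) (w ^ 2 / z) * (‖lin (Phi S lam) g‖ ^ 2 : ℝ) := by
      conv_lhs => rw [e2]
      rw [inner_add_left, inner_smul_left, inner_smul_left, inner_self_eq_norm_sq_to_K]
      simp
    rw [e3, add_re]
    refine add_nonneg ?_ ?_
    · rw [← ofReal_pow, re_ofReal_mul, inner_lin]
      exact mul_nonneg (by positivity) (hacc _)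
    · rw [Complex.re_mul_ofReal]
      refine mul_nonneg ?_ (by positivity)
      rw [Complex.conj_re]
      have : w ^ 2 / z = ((1 / ‖z‖ : ℝ) : ℂ) * w := by
        conv_lhs => rw [hzw]
        have : (‖z‖ : ℂ) ≠ 0 := by exact_mod_cast hzn.ne'
        push_cast
        field_simp
      rw [this, re_ofReal_mul]
      positivity
  -- integrate
  have hint : ∀ k, IntegrableOn (fun r : ℝ => coef S v k * (lam k * (1 / ((r : ℂ) ^ 2 + ν k ^ 2))))
      (Ioi 0) := fun k => ((intQ (hνre k)).const_mul (lam k)).const_mul _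
  have h1 : ∫ r in Ioi (0 : ℝ), ∑ k, coef S v k * (lam k * (1 / ((r : ℂ) ^ 2 + ν k ^ 2))) =
      ((Real.pi * ‖z‖ / 2 : ℝ) : ℂ) * ∑ k, coef S v k * δ k := by
    rw [integral_finsetSum _ (fun k _ => hint k), Finset.mul_sum]
    refine Finset.sum_congr rfl fun k _ => ?_
    rw [integral_const_mul, integral_const_mul, quad (hνre k)]
    have e1 : lam k = z / w ^ 2 * ν k ^ 2 := by
      rw [hν2 k]; field_simp
    have e2 : z / w ^ 2 * ν k ^ 2 * (Real.pi / (2 * ν k)) = ((Real.pi * ‖z‖ / 2 : ℝ) : ℂ) * δ k := by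
      have h3 : ν k = w * δ k := rfl
      have h4 : δ k ≠ 0 := Complex.exp_ne_zero _
      conv_lhs => rw [hzw, h3]
      push_cast
      field_simp
    rw [e1, e2]; ring
  have h2 : 0 ≤ (∫ r in Ioi (0 : ℝ), ∑ k, coef S v k * (lam k * (1 / ((r : ℂ) ^ 2 + ν k ^ 2)))).re := by
    have hI : Integrable (fun r : ℝ => ∑ k, coef S v k * (lam k * (1 / ((r : ℂ) ^ 2 + ν k ^ 2))))
      (volume.restrict (Ioi 0)) := integrable_finsetSum _ fun k _ => hint k
    have h3 := reCLM.integral_comp_comm hI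
    simp only [reCLM_apply] at h3
    rw [← h3]
    exact setIntegral_nonneg measurableSet_Ioi hpt
  rw [h1, re_ofReal_mul] at h2
  rw [form_Phi]
  exact nonneg_of_mul_nonneg_right h2 (by positivity)

end Pool.Agent.H63N.NR
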