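import Pool.Agent.H63N.NRDiag2

/-! The inequality for diagonalizable matrices. -/

namespace Pool.Agent.H63N.NR

open Matrix MeasureTheory Complex Set

variable {n : ℕ}

theorem form_smul_vec (A : Matrix (Fin n) (Fin n) ℂ) (c : ℂ) (v : Fin n → ℂ) :
    form A (c • v) = (‖c‖ ^ 2 : ℝ) * form A v := by
  unfold form
  rw [Matrix.mulVec_smul, Finset.mul_sum]
  refine Finset.sum_congr rfl fun i _ => ?_
  simp only [Pi.smul_apply, smul_eq_mul, star_mul']
  have h : star c * c = ((‖c‖ ^ 2 : ℝ) : ℂ) := by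
    have := Complex.conj_mul' c
    push_cast
    exact this
  rw [← h]; ring

theorem normalize (v : EuclideanSpace ℂ (Fin n)) (hv : v ≠ 0) :
    ∑ i, ‖(((‖v‖⁻¹ : ℝ) : ℂ) • v.ofLp) i‖ ^ 2 = 1 := by
  have h : 0 < ‖v‖ := norm_pos_iff.2 hv
  have h2 := sum_eq_norm v
  simp only [Pi.smul_apply, smul_eq_mul, norm_mul, mul_pow]
  rw [← Finset.mul_sum, h2, Complex.norm_real, Real.norm_of_nonneg (by positivity)]
  field_simp

theorem form_eq_scale (A : Matrix (Fin n) (Fin n) ℂ) (v : EuclideanSpace ℂ (Fin n)) (hv : v ≠ 0) :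
    form A v.ofLp = (‖v‖ ^ 2 : ℝ) * form A (((‖v‖⁻¹ : ℝ) : ℂ) • v.ofLp) := by
  have h : 0 < ‖v‖ := norm_pos_iff.2 hv
  rw [form_smul_vec, ← mul_assoc, Complex.norm_real, Real.norm_of_nonneg (by positivity),
    ← ofReal_mul]
  have : ‖v‖ ^ 2 * ‖v‖⁻¹ ^ 2 = 1 := by field_simp
  rw [this]; simp

theorem form_zero (A : Matrix (Fin n) (Fin n) ℂ) : form A (0 : Fin n → ℂ) = 0 := by
  simp [form]

theorem Accretive.pos {A : Matrix (Fin n) (Fin n) ℂ} (hA : Accretive A)
    (v : EuclideanSpace ℂ (Fin n)) (hv : v ≠ 0) : 0 < (form A v.ofLp).re := by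
  rw [form_eq_scale A v hv, re_ofReal_mul]
  have h : 0 < ‖v‖ := norm_pos_iff.2 hv
  exact mul_pos (by positivity) (hA _ (normalize v hv))

theorem Accretive.nonneg {A : Matrix (Fin n) (Fin n) ℂ} (hA : Accretive A) (v : Fin n → ℂ) :
    0 ≤ (form A v).re := by
  by_cases hv : (WithLp.toLp 2 v : EuclideanSpace ℂ (Fin n)) = 0
  · have : v = 0 := by
      have := congrArg WithLp.ofLp hv; simpa using this
    rw [this, form_zero]; simp
  · exact (hA.pos _ hv).le

theorem form_le_of {A : Matrix (Fin n) (Fin n) ℂ} {R : ℝ}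
    (h : ∀ v : Fin n → ℂ, ∑ i, ‖v i‖ ^ 2 = 1 → ‖form A v‖ ≤ R) (v : EuclideanSpace ℂ (Fin n)) :
    ‖form A v.ofLp‖ ≤ R * ‖v‖ ^ 2 := by
  by_cases hv : v = 0
  · subst hv; simp [form_zero]
  · rw [form_eq_scale A v hv, norm_mul, Complex.norm_real, Real.norm_of_nonneg (by positivity),
      mul_comm]
    exact mul_le_mul_of_nonneg_right (h _ (normalize v hv)) (by positivity)

theorem eig_pos {S : Matrix (Fin n) (Fin n) ℂ} (hS : IsUnit S.det) (lam : Fin n → ℂ)
    (hA : Accretive (Phi S lam)) (k : Fin n) : 0 < (lam k).re := by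
  set v : EuclideanSpace ℂ (Fin n) := WithLp.toLp 2 (fun i => S i k) with hv
  have hv0 : v ≠ 0 := by
    intro h
    have h1 : ∀ i, S i k = 0 := by
      intro i
      have := congrArg (fun u : EuclideanSpace ℂ (Fin n) => u.ofLp i) h
      simpa [hv] using this
    exact hS.ne_zero (Matrix.det_eq_zero_of_column_eq_zero k h1)
  have h1 := hA.pos v hv0
  have h2 : (Phi S lam) *ᵥ (fun i => S i k) = fun i => lam k * S i k := by
    have h3 : Phi S lam * S = S * diagonal lam := by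
      unfold Phi; rw [Matrix.mul_assoc, Matrix.nonsing_inv_mul _ hS, Matrix.mul_one]
    funext i
    have h4 := congrFun (congrFun h3 i) k
    rw [Matrix.mul_apply, Matrix.mul_diagonal] at h4
    simp only [Matrix.mulVec, dotProduct]
    rw [h4]; ring
  have h3 : form (Phi S lam) v.ofLp = lam k * (‖v‖ ^ 2 : ℝ) := by
    unfold form
    rw [hv]
    simp only
    rw [h2, ← sum_eq_norm, ofReal_sum, Finset.mul_sum]
    refine Finset.sum_congr rfl fun i _ => ?_
    have : star (S i k) * S i k = ((‖S i k‖ ^ 2 : ℝ) : ℂ) := by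
      have := Complex.conj_mul' (S i k)
      push_cast
      exact this
    rw [← this]; ring
  rw [h3, re_mul_ofReal] at h1
  exact pos_of_mul_pos_left h1 (by positivity)

theorem diag_main {S : Matrix (Fin n) (Fin n) ℂ} (hS : IsUnit S.det) (lam : Fin n → ℂ)
    (hA : Accretive (Phi S lam)) (t : ℝ) (ht : 1 / 2 < t) (ht1 : t < 1) (x : Fin n → ℂ)
    (hx : ∑ i, ‖x i‖ ^ 2 = 1)
    (hmax : ∀ v : Fin n → ℂ, ∑ i, ‖v i‖ ^ 2 = 1 → ‖form (Phi S lam) v‖ ≤ ‖form (Phi S lam) x‖) :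
    ‖form (Phi S lam) x‖ ^ t ≤ ‖form (fracPow (Phi S lam) t) x‖ := by
  have hlam := eig_pos hS lam hA
  set A := Phi S lam with hAdef
  set z := form A x with hz
  have hzre : 0 < z.re := hA x hx
  have hz0 : z ≠ 0 := by intro h; rw [h] at hzre; simp at hzre
  have hzn : 0 < ‖z‖ := norm_pos_iff.2 hz0
  have hl : ∀ k, lam k ≠ 0 := fun k h => by have := hlam k; rw [h] at this; simp at this
  set δ : Fin n → ℂ := fun k => cexp ((Complex.log (lam k) - Complex.log z) / 2) with hδ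
  have harg : ∀ u : ℂ, 0 < u.re → |Complex.arg u| < Real.pi / 2 := fun u hu =>
    Complex.abs_arg_lt_pi_div_two_iff.2 (Or.inl hu)
  have him : ∀ k, ((Complex.log (lam k) - Complex.log z) / 2).im =
      (Complex.arg (lam k) - Complex.arg z) / 2 := by
    intro k
    rw [show (2 : ℂ) = ((2 : ℝ) : ℂ) by norm_num, Complex.div_ofReal_im, sub_im,
      Complex.log_im, Complex.log_im]
  have him2 : ∀ k, |((Complex.log (lam k) - Complex.log z) / 2).im| < Real.pi / 2 := by
    intro k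
    rw [him k, abs_lt]
    have h1 := abs_lt.1 (harg _ (hlam k))
    have h2 := abs_lt.1 (harg _ hzre)
    constructor <;> linarith [h1.1, h1.2, h2.1, h2.2]
  have hδre : ∀ k, 0 < (δ k).re := by
    intro k
    show 0 < (cexp ((Complex.log (lam k) - Complex.log z) / 2)).re
    rw [Complex.exp_re]
    exact mul_pos (Real.exp_pos _) (Real.cos_pos_of_mem_Ioo (abs_lt.1 (him2 k)))
  have hδ2 : ∀ k, δ k * δ k = z⁻¹ * lam k := by
    intro k
    show cexp ((Complex.log (lam k) - Complex.log z) / 2) *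
      cexp ((Complex.log (lam k) - Complex.log z) / 2) = _
    rw [← Complex.exp_add, add_halves, Complex.exp_sub, Complex.exp_log (hl k),
      Complex.exp_log hz0]
    ring
  set D := lin (Phi S δ) with hD
  have hDD : ∀ v, D (D v) = lin (z⁻¹ • A) v := by
    intro v
    rw [hD, lin_mul, Phi_mul hS, hAdef, Phi_smul]
    congr 3
    funext k; exact hδ2 k
  have hDacc : ∀ v, 0 ≤ (inner ℂ v (D v) : ℂ).re := by
    intro v
    rw [hD, inner_lin]
    exact acc_sqrt hS lam hlam (fun v => hA.nonneg v) hzre _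
  have hbound : ∀ v : EuclideanSpace ℂ (Fin n), ‖(inner ℂ v (D (D v)) : ℂ)‖ ≤ ‖v‖ ^ 2 := by
    intro v
    rw [hDD, lin_smul, inner_smul_right, inner_lin, norm_mul, norm_inv]
    have h1 := form_le_of hmax v
    have h2 : ‖z‖⁻¹ * ‖form A v.ofLp‖ ≤ ‖z‖⁻¹ * (‖z‖ * ‖v‖ ^ 2) :=
      mul_le_mul_of_nonneg_left h1 (by positivity)
    refine h2.trans (le_of_eq ?_)
    field_simp
  set X : EuclideanSpace ℂ (Fin n) := WithLp.toLp 2 x with hX
  have hXn : ‖X‖ = 1 := by
    have h1 := sum_eq_norm X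
    have h2 : ‖X‖ ^ 2 = 1 := by rw [← h1]; exact hx
    have h3 := norm_nonneg X
    nlinarith
  have hX1 : inner ℂ X (D (D X)) = (1 : ℂ) := by
    rw [hDD, lin_smul, inner_smul_right, inner_lin]
    exact inv_mul_cancel₀ hz0
  have hX2 : ∀ y, inner ℂ X (y - D (D y)) = - (inner ℂ (X - D (D X)) y : ℂ) := by
    intro y
    have := ext_lemma (lin (z⁻¹ • A)) (fun v => by
      rw [← hDD]; exact (Complex.re_le_norm _).trans (hbound v)) X hXn (by rw [← hDD]; exact hX1) y
    rw [← hDD, ← hDD] at this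
    exact this
  -- the pointwise inequality
  have hpt : ∀ s ∈ Ioi (0 : ℝ), 1 / (s + 1) ≤
      (∑ k, coef S x k * (δ k ^ 2 * (1 / ((s : ℂ) + δ k)))).re := by
    intro s hs
    have hs0 : (0 : ℝ) < s := hs
    have hne1 : ∀ k, (s : ℂ) + δ k ≠ 0 := by
      intro k h
      have := congrArg Complex.re h
      simp at this
      linarith [hδre k]
    have hne2 : ∀ k, 1 + δ k ≠ 0 := by
      intro k h
      have := congrArg Complex.re h
      simp at this
      linarith [hδre k]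
    set g := lin (Phi S fun k => 1 / ((1 + δ k) * ((s : ℂ) + δ k))) X with hg
    have e1 : X = (s : ℂ) • g + ((s : ℂ) + 1) • D g + D (D g) := by
      rw [hg, hD, lin_mul, lin_mul, Phi_mul hS, Phi_mul hS, ← lin_smul, ← lin_smul, Phi_smul,
        Phi_smul, ← lin_add, Phi_add, ← lin_add, Phi_add]
      have : (fun k => (s : ℂ) * (1 / ((1 + δ k) * ((s : ℂ) + δ k))) +
          ((s : ℂ) + 1) * (δ k * (1 / ((1 + δ k) * ((s : ℂ) + δ k)))) +
          δ k * (δ k * (1 / ((1 + δ k) * ((s : ℂ) + δ k))))) = fun _ => (1 : ℂ) := by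
        funext k
        have h1 := hne1 k
        have h2 := hne2 k
        field_simp
        ring
      rw [this, Phi_one hS, lin_one]
    have e2 := key D hDacc (fun v => by
      have h1 := (abs_le.1 ((Complex.abs_re_le_norm _).trans (hbound v))).1
      linarith) X hXn hX1 hX2 s hs0 g e1
    have e3 : D (D g) + D (D (D g)) = lin (Phi S fun k => δ k ^ 2 * (1 / ((s : ℂ) + δ k))) X := by
      rw [hg, hD, lin_mul, lin_mul, lin_mul, Phi_mul hS, Phi_mul hS, Phi_mul hS, ← lin_add, Phi_add]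
      congr 3
      funext k
      have h1 := hne1 k
      have h2 := hne2 k
      field_simp
    rw [e3, inner_lin, form_Phi] at e2
    exact e2
  -- integrate
  set τ : ℝ := 2 * t - 1 with hτ
  have hτ0 : 0 < τ := by linarith
  have hτ1 : τ < 1 := by linarith
  have hsin : 0 < Real.sin (Real.pi * τ) :=
    Real.sin_pos_of_pos_of_lt_pi (by positivity) (by nlinarith [Real.pi_pos])
  have hint : ∀ k, IntegrableOn (fun s : ℝ => (coef S x k * δ k ^ 2) *
      (((s ^ (τ - 1) : ℝ) : ℂ) * (1 / ((s : ℂ) + δ k)))) (Ioi 0) :=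
    fun k => (intC τ hτ0 hτ1 (hδre k)).const_mul _
  have hI : Integrable (fun s : ℝ => ∑ k, (coef S x k * δ k ^ 2) *
      (((s ^ (τ - 1) : ℝ) : ℂ) * (1 / ((s : ℂ) + δ k)))) (volume.restrict (Ioi 0)) :=
    integrable_finsetSum _ fun k _ => hint k
  have h1 : ∫ s in Ioi (0 : ℝ), ∑ k, (coef S x k * δ k ^ 2) *
      (((s ^ (τ - 1) : ℝ) : ℂ) * (1 / ((s : ℂ) + δ k))) =
      ((Real.pi / Real.sin (Real.pi * τ) : ℝ) : ℂ) *
        ∑ k, coef S x k * (δ k ^ 2 * δ k ^ ((τ : ℂ) - 1)) := by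
    rw [integral_finsetSum _ (fun k _ => hint k), Finset.mul_sum]
    refine Finset.sum_congr rfl fun k _ => ?_
    rw [integral_const_mul, stieltjes τ hτ0 hτ1 (hδre k)]
    ring
  have h2 : ∫ s in Ioi (0 : ℝ), s ^ (τ - 1) * (1 / (s + 1)) = Real.pi / Real.sin (Real.pi * τ) := by
    have h3 := stieltjes τ hτ0 hτ1 (z := 1) (by simp)
    rw [Complex.one_cpow, mul_one] at h3
    have h4 : ∀ s : ℝ, ((s ^ (τ - 1) : ℝ) : ℂ) * (1 / ((s : ℂ) + 1)) =
        ((s ^ (τ - 1) * (1 / (s + 1)) : ℝ) : ℂ) := by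
      intro s; push_cast; ring
    simp_rw [h4] at h3
    rw [integral_complex_ofReal] at h3
    exact_mod_cast h3
  have h3 : Real.pi / Real.sin (Real.pi * τ) ≤ (∫ s in Ioi (0 : ℝ), ∑ k, (coef S x k * δ k ^ 2) *
      (((s ^ (τ - 1) : ℝ) : ℂ) * (1 / ((s : ℂ) + δ k)))).re := by
    have h4 := reCLM.integral_comp_comm hI
    simp only [reCLM_apply] at h4
    rw [← h4, ← h2]
    refine setIntegral_mono_on (intS τ hτ0 hτ1 one_pos) (reCLM.integrable_comp hI) measurableSet_Ioi ?_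
    intro s hs
    have hs0 : (0 : ℝ) < s := hs
    have e : (∑ k, (coef S x k * δ k ^ 2) * (((s ^ (τ - 1) : ℝ) : ℂ) * (1 / ((s : ℂ) + δ k)))) =
        ((s ^ (τ - 1) : ℝ) : ℂ) * ∑ k, coef S x k * (δ k ^ 2 * (1 / ((s : ℂ) + δ k))) := by
      rw [Finset.mul_sum]
      refine Finset.sum_congr rfl fun k _ => ?_
      ring
    rw [e, re_ofReal_mul]
    exact mul_le_mul_of_nonneg_left (hpt s hs) (by positivity)
  rw [h1, re_ofReal_mul] at h3
  have h4 : 1 ≤ (∑ k, coef S x k * (δ k ^ 2 * δ k ^ ((τ : ℂ) - 1))).re := by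
    have hc : 0 < Real.pi / Real.sin (Real.pi * τ) := by positivity
    by_contra hcon
    push Not at hcon
    have := mul_lt_mul_of_pos_left hcon hc
    linarith
  -- the powers
  have h5 : ∀ k, lam k ^ (t : ℂ) = z ^ (t : ℂ) * (δ k ^ 2 * δ k ^ ((τ : ℂ) - 1)) := by
    intro k
    have hδ0 : δ k ≠ 0 := Complex.exp_ne_zero _
    have hlog : Complex.log (δ k) = (Complex.log (lam k) - Complex.log z) / 2 := by
      have h := abs_lt.1 (him2 k)
      exact Complex.log_exp (by linarith [h.1, Real.pi_pos]) (by linarith [h.2, Real.pi_pos])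
    have e1 : δ k ^ 2 * δ k ^ ((τ : ℂ) - 1) = δ k ^ ((2 : ℂ) * t) := by
      rw [← Complex.cpow_natCast, ← Complex.cpow_add _ _ hδ0]
      congr 1
      rw [hτ]; push_cast; ring
    rw [e1, Complex.cpow_def_of_ne_zero (hl k), Complex.cpow_def_of_ne_zero hz0,
      Complex.cpow_def_of_ne_zero hδ0, hlog, ← Complex.exp_add]
    congr 1
    ring
  rw [hAdef, fracPow_Phi hS lam hlam t (by linarith) ht1, form_Phi]
  have h6 : ∑ k, coef S x k * lam k ^ (t : ℂ) =
      z ^ (t : ℂ) * ∑ k, coef S x k * (δ k ^ 2 * δ k ^ ((τ : ℂ) - 1)) := by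
    rw [Finset.mul_sum]
    refine Finset.sum_congr rfl fun k _ => ?_
    rw [h5 k]; ring
  rw [h6, norm_mul, Complex.norm_cpow_real]
  have h7 : 1 ≤ ‖∑ k, coef S x k * (δ k ^ 2 * δ k ^ ((τ : ℂ) - 1))‖ :=
    h4.trans (Complex.re_le_norm _)
  have h8 : 0 ≤ ‖z‖ ^ t := by positivity
  nlinarith

end Pool.Agent.H63N.NR
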