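import Pool.Agent.H63N.NRDense

/-! Passage to the limit. -/

namespace Pool.Agent.H63N.NR

open Matrix MeasureTheory Complex Set Filter Topology

variable {n : ℕ}

theorem coord_le_one {x : Fin n → ℂ} (hx : ∑ i, ‖x i‖ ^ 2 = 1) (i : Fin n) : ‖x i‖ ≤ 1 := by
  have h1 : ‖x i‖ ^ 2 ≤ 1 := by
    rw [← hx]
    exact Finset.single_le_sum (f := fun i => ‖x i‖ ^ 2) (fun j _ => by positivity) (Finset.mem_univ i)
  have h2 := norm_nonneg (x i)
  nlinarith

theorem form_bound (M : Matrix (Fin n) (Fin n) ℂ) {x : Fin n → ℂ} (hx : ∑ i, ‖x i‖ ^ 2 = 1) :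
    ‖form M x‖ ≤ ∑ i, ∑ j, ‖M i j‖ := by
  unfold form
  refine (norm_sum_le _ _).trans (Finset.sum_le_sum fun i _ => ?_)
  rw [norm_mul, norm_star]
  have h1 := coord_le_one hx i
  have h2 : ‖(M *ᵥ x) i‖ ≤ ∑ j, ‖M i j‖ := by
    simp only [Matrix.mulVec, dotProduct]
    refine (norm_sum_le _ _).trans (Finset.sum_le_sum fun j _ => ?_)
    rw [norm_mul]
    exact mul_le_of_le_one_right (norm_nonneg _) (coord_le_one hx j)
  calc ‖x i‖ * ‖(M *ᵥ x) i‖ ≤ 1 * ‖(M *ᵥ x) i‖ := by gcongr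
    _ ≤ _ := by rw [one_mul]; exact h2

theorem bddAbove_numRadius (M : Matrix (Fin n) (Fin n) ℂ) :
    BddAbove {r : ℝ | ∃ x : Fin n → ℂ, ∑ i, ‖x i‖ ^ 2 = 1 ∧ r = ‖form M x‖} := by
  refine ⟨∑ i, ∑ j, ‖M i j‖, ?_⟩
  rintro r ⟨x, hx, rfl⟩
  exact form_bound M hx

theorem form_le_numRadius (M : Matrix (Fin n) (Fin n) ℂ) {x : Fin n → ℂ}
    (hx : ∑ i, ‖x i‖ ^ 2 = 1) : ‖form M x‖ ≤ numRadius M :=
  le_csSup (bddAbove_numRadius M) ⟨x, hx, rfl⟩

theorem form_sub (M N : Matrix (Fin n) (Fin n) ℂ) (x : Fin n → ℂ) :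
    form (M - N) x = form M x - form N x := by
  unfold form
  rw [Matrix.sub_mulVec, ← Finset.sum_sub_distrib]
  refine Finset.sum_congr rfl fun i _ => ?_
  rw [Pi.sub_apply]; ring

theorem form_add (M N : Matrix (Fin n) (Fin n) ℂ) (x : Fin n → ℂ) :
    form (M + N) x = form M x + form N x := by
  unfold form
  rw [Matrix.add_mulVec, ← Finset.sum_add_distrib]
  refine Finset.sum_congr rfl fun i _ => ?_
  rw [Pi.add_apply]; ring

theorem form_smul (c : ℂ) (M : Matrix (Fin n) (Fin n) ℂ) (x : Fin n → ℂ) :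
    form (c • M) x = c * form M x := by
  unfold form
  rw [Matrix.smul_mulVec, Finset.mul_sum]
  refine Finset.sum_congr rfl fun i _ => ?_
  rw [Pi.smul_apply, smul_eq_mul]; ring

theorem continuous_form (M : Matrix (Fin n) (Fin n) ℂ) : Continuous (form M) := by
  unfold form
  simp only [Matrix.mulVec, dotProduct]
  fun_prop

/-- The maximum defining the numerical radius is attained. -/
theorem exists_max (M : Matrix (Fin n) (Fin n) ℂ) {x0 : Fin n → ℂ} (hx0 : ∑ i, ‖x0 i‖ ^ 2 = 1) :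
    ∃ x : Fin n → ℂ, ∑ i, ‖x i‖ ^ 2 = 1 ∧
      ∀ v : Fin n → ℂ, ∑ i, ‖v i‖ ^ 2 = 1 → ‖form M v‖ ≤ ‖form M x‖ := by
  have hcomp : IsCompact {x : Fin n → ℂ | ∑ i, ‖x i‖ ^ 2 = 1} := by
    refine Metric.isCompact_of_isClosed_isBounded ?_ ?_
    · exact isClosed_eq (by fun_prop) continuous_const
    · refine (Metric.isBounded_closedBall (x := (0 : Fin n → ℂ)) (r := 1)).subset ?_
      intro x hx
      rw [mem_closedBall_zero_iff, pi_norm_le_iff_of_nonneg zero_le_one]
      exact fun i => coord_le_one hx i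
  obtain ⟨x, hx, hmax⟩ := hcomp.exists_isMaxOn ⟨x0, hx0⟩
    ((continuous_form M).norm.continuousOn)
  exact ⟨x, hx, fun v hv => hmax hv⟩

theorem resolvent {B : Matrix (Fin n) (Fin n) ℂ} (hB : ∀ v, 0 ≤ (form B v).re) {s : ℝ}
    (hs : 0 < s) : ((s : ℂ) • (1 : Matrix (Fin n) (Fin n) ℂ) + B).det ≠ 0 := by
  intro h
  obtain ⟨v, hv0, hv⟩ := Matrix.exists_mulVec_eq_zero_iff.2 h
  have h1 : form ((s : ℂ) • (1 : Matrix (Fin n) (Fin n) ℂ) + B) v = 0 := by
    unfold form; rw [hv]; simp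
  have h2 : form (1 : Matrix (Fin n) (Fin n) ℂ) v = ((∑ i, ‖v i‖ ^ 2 : ℝ) : ℂ) := by
    unfold form
    rw [Matrix.one_mulVec, ofReal_sum]
    refine Finset.sum_congr rfl fun i _ => ?_
    have := Complex.conj_mul' (v i)
    push_cast
    exact this
  rw [form_add, form_smul, h2, ← ofReal_mul] at h1
  have h3 := congrArg Complex.re h1
  rw [add_re, ofReal_re, zero_re] at h3
  have h4 : 0 < ∑ i, ‖v i‖ ^ 2 := by
    obtain ⟨i, hi⟩ := Function.ne_iff.1 hv0
    refine Finset.sum_pos' (fun j _ => by positivity) ⟨i, Finset.mem_univ i, ?_⟩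
    have : 0 < ‖v i‖ := norm_pos_iff.2 hi
    positivity
  have := hB v
  nlinarith [mul_pos hs h4]

theorem entry_bound {B : Matrix (Fin n) (Fin n) ℂ} (hB : ∀ v, 0 ≤ (form B v).re) {s : ℝ}
    (hs : 0 < s) {K : ℝ} (hK : ∀ i, ∑ l, ‖B i l‖ ≤ K) (i j : Fin n) :
    ‖(B * ((s : ℂ) • (1 : Matrix (Fin n) (Fin n) ℂ) + B)⁻¹) i j‖ ≤ (K + 1) * (1 / (s + 1)) := by
  have hdet : IsUnit ((s : ℂ) • (1 : Matrix (Fin n) (Fin n) ℂ) + B).det :=
    isUnit_iff_ne_zero.2 (resolvent hB hs)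
  set T := (s : ℂ) • (1 : Matrix (Fin n) (Fin n) ℂ) + B with hT
  set e : EuclideanSpace ℂ (Fin n) := EuclideanSpace.single j 1 with he
  set w := lin T⁻¹ e with hw
  have h1 : e = (s : ℂ) • w + lin B w := by
    rw [← lin_one w, ← lin_smul, lin_one w, ← lin_add, ← hT, hw, lin_mul,
      Matrix.mul_nonsing_inv _ hdet, lin_one]
  have h2 : ‖e‖ = 1 := by rw [he]; simp
  have h3 : ‖e‖ ^ 2 = s ^ 2 * ‖w‖ ^ 2 + 2 * s * (inner ℂ w (lin B w) : ℂ).re + ‖lin B w‖ ^ 2 := by
    have := @norm_add_sq ℂ _ _ _ _ ((s : ℂ) • w) (lin B w)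
    rw [← h1] at this
    rw [this, inner_smul_left, norm_smul, mul_pow, conj_ofReal]
    simp
    ring
  have h4 : 0 ≤ (inner ℂ w (lin B w) : ℂ).re := by rw [inner_lin]; exact hB _
  rw [h2] at h3
  have h5 : ‖lin B w‖ ≤ 1 := by
    have : ‖lin B w‖ ^ 2 ≤ 1 := by
      have : 0 ≤ s ^ 2 * ‖w‖ ^ 2 + 2 * s * (inner ℂ w (lin B w) : ℂ).re := by positivity
      linarith
    have h0 := norm_nonneg (lin B w)
    nlinarith
  have h6 : s * ‖w‖ ≤ 1 := by
    have : (s * ‖w‖) ^ 2 ≤ 1 := by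
      have : 0 ≤ 2 * s * (inner ℂ w (lin B w) : ℂ).re + ‖lin B w‖ ^ 2 := by positivity
      nlinarith
    have h0 : 0 ≤ s * ‖w‖ := by positivity
    nlinarith
  have hent : (B * T⁻¹) i j = (lin B w).ofLp i := by
    rw [hw, lin_mul, lin_apply, he]
    simp
  have b1 : ‖(B * T⁻¹) i j‖ ≤ 1 := by
    rw [hent]
    exact (PiLp.norm_apply_le (lin B w) i).trans h5
  have b2 : s * ‖(B * T⁻¹) i j‖ ≤ K := by
    rw [hent, lin_apply]
    simp only [Matrix.mulVec, dotProduct]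
    calc s * ‖∑ l, B i l * w.ofLp l‖ ≤ s * ∑ l, ‖B i l‖ * ‖w‖ := by
          refine mul_le_mul_of_nonneg_left ((norm_sum_le _ _).trans (Finset.sum_le_sum fun l _ => ?_)) hs.le
          rw [norm_mul]
          exact mul_le_mul_of_nonneg_left (PiLp.norm_apply_le w l) (norm_nonneg _)
      _ = (∑ l, ‖B i l‖) * (s * ‖w‖) := by rw [← Finset.sum_mul]; ring
      _ ≤ (∑ l, ‖B i l‖) * 1 := by
          refine mul_le_mul_of_nonneg_left h6 (Finset.sum_nonneg fun l _ => norm_nonneg _)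
      _ ≤ K := by rw [mul_one]; exact hK i
  rw [mul_one_div, le_div_iff₀ (by positivity)]
  nlinarith

theorem tendsto_fracPow {A : Matrix (Fin n) (Fin n) ℂ} (hA : ∀ v, 0 ≤ (form A v).re)
    (B : ℕ → Matrix (Fin n) (Fin n) ℂ) (hB : ∀ k v, 0 ≤ (form (B k) v).re)
    (hlim : Tendsto B atTop (𝓝 A)) {K : ℝ} (hK : ∀ k i, ∑ l, ‖B k i l‖ ≤ K)
    (t : ℝ) (ht : 0 < t) (ht1 : t < 1) (i j : Fin n) :
    Tendsto (fun k => fracPow (B k) t i j) atTop (𝓝 (fracPow A t i j)) := by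
  simp only [fracPow, Matrix.of_apply]
  refine Tendsto.const_mul _ ?_
  have hcont : ∀ s ∈ Ioi (0 : ℝ), Tendsto (fun k => (B k * ((s : ℂ) • (1 : Matrix (Fin n) (Fin n) ℂ) + B k)⁻¹) i j)
      atTop (𝓝 ((A * ((s : ℂ) • (1 : Matrix (Fin n) (Fin n) ℂ) + A)⁻¹) i j)) := by
    intro s hs
    have hdet := resolvent hA (s := s) hs
    have h1 : Tendsto (fun k => (s : ℂ) • (1 : Matrix (Fin n) (Fin n) ℂ) + B k) atTop
        (𝓝 ((s : ℂ) • (1 : Matrix (Fin n) (Fin n) ℂ) + A)) := hlim.const_add _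
    have h2 : Tendsto (fun k => ((s : ℂ) • (1 : Matrix (Fin n) (Fin n) ℂ) + B k)⁻¹) atTop
        (𝓝 ((s : ℂ) • (1 : Matrix (Fin n) (Fin n) ℂ) + A)⁻¹) := by
      simp only [Matrix.inv_def, Ring.inverse_eq_inv']
      refine Tendsto.smul (Tendsto.inv₀ ?_ hdet) ?_
      · exact ((continuous_id.matrix_det).tendsto _).comp h1
      · exact ((continuous_id.matrix_adjugate).tendsto _).comp h1
    have h3 : Tendsto (fun k => B k * ((s : ℂ) • (1 : Matrix (Fin n) (Fin n) ℂ) + B k)⁻¹) atTop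
        (𝓝 (A * ((s : ℂ) • (1 : Matrix (Fin n) (Fin n) ℂ) + A)⁻¹)) := hlim.mul h2
    exact ((continuous_apply_apply i j).tendsto _).comp h3
  have hmeas : ∀ C : Matrix (Fin n) (Fin n) ℂ, (∀ v, 0 ≤ (form C v).re) →
      AEStronglyMeasurable (fun s : ℝ => ((s ^ (t - 1) : ℝ) : ℂ) *
        (C * ((s : ℂ) • (1 : Matrix (Fin n) (Fin n) ℂ) + C)⁻¹) i j) (volume.restrict (Ioi 0)) := by
    intro C hC
    refine ContinuousOn.aestronglyMeasurable ?_ measurableSet_Ioi
    refine ContinuousOn.mul ?_ ?_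
    · refine continuous_ofReal.comp_continuousOn ?_
      exact ContinuousOn.rpow_const continuousOn_id fun s hs => Or.inl (ne_of_gt hs)
    · intro s hs
      have hdet := resolvent hC (s := s) hs
      have h1 : ContinuousAt (fun s : ℝ => (s : ℂ) • (1 : Matrix (Fin n) (Fin n) ℂ) + C) s := by
        have : Continuous (fun s : ℝ => (s : ℂ) • (1 : Matrix (Fin n) (Fin n) ℂ) + C) := by fun_prop
        exact this.continuousAt
      have h2 : ContinuousAt (fun s : ℝ => ((s : ℂ) • (1 : Matrix (Fin n) (Fin n) ℂ) + C)⁻¹) s := by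
        simp only [Matrix.inv_def, Ring.inverse_eq_inv']
        have a1 : ContinuousAt (fun s : ℝ =>
            ((s : ℂ) • (1 : Matrix (Fin n) (Fin n) ℂ) + C).det⁻¹) s :=
          ContinuousAt.inv₀ ((continuous_id.matrix_det).continuousAt.comp h1) hdet
        have a2 : ContinuousAt (fun s : ℝ =>
            ((s : ℂ) • (1 : Matrix (Fin n) (Fin n) ℂ) + C).adjugate) s :=
          (continuous_id.matrix_adjugate).continuousAt.comp h1
        exact a1.smul a2
      have h3 : ContinuousAt (fun s : ℝ => C * ((s : ℂ) • (1 : Matrix (Fin n) (Fin n) ℂ) + C)⁻¹) s :=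
        continuousAt_const.mul h2
      exact ((continuous_apply_apply i j).continuousAt.comp h3).continuousWithinAt
  refine tendsto_integral_of_dominated_convergence
    (fun s : ℝ => (K + 1) * (s ^ (t - 1) * (1 / (s + 1)))) (fun k => hmeas _ (hB k)) ?_ ?_ ?_
  · exact (intS t ht ht1 one_pos).const_mul _
  · intro k
    refine (ae_restrict_iff' measurableSet_Ioi).2 (ae_of_all _ fun s hs => ?_)
    have hs0 : (0 : ℝ) < s := hs
    rw [norm_mul, Complex.norm_real, Real.norm_of_nonneg (by positivity)]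
    calc s ^ (t - 1) * _ ≤ s ^ (t - 1) * ((K + 1) * (1 / (s + 1))) :=
          mul_le_mul_of_nonneg_left (entry_bound (hB k) hs0 (hK k) i j) (by positivity)
      _ = _ := by ring
  · refine (ae_restrict_iff' measurableSet_Ioi).2 (ae_of_all _ fun s hs => ?_)
    exact (hcont s hs).const_mul _

theorem form_Lam_re (x : Fin n → ℂ) (hx : ∑ i, ‖x i‖ ^ 2 = 1) : 1 ≤ (form (Lam n) x).re := by
  unfold form Lam
  have h1 : ∀ i, star (x i) * (diagonal (fun i : Fin n => ((i : ℕ) : ℂ) + 1) *ᵥ x) i =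
      (((((i : ℕ) : ℝ) + 1) * ‖x i‖ ^ 2 : ℝ) : ℂ) := by
    intro i
    rw [Matrix.mulVec_diagonal]
    have := Complex.conj_mul' (x i)
    push_cast
    rw [← this]
    show (starRingEnd ℂ) (x i) * _ = _
    ring
  simp_rw [h1]
  rw [← ofReal_sum, ofReal_re, ← hx]
  refine Finset.sum_le_sum fun i _ => ?_
  have : (0 : ℝ) ≤ ((i : ℕ) : ℝ) := by positivity
  nlinarith [sq_nonneg ‖x i‖]

/-- **Main theorem.** -/
theorem main (A : Matrix (Fin n) (Fin n) ℂ) (hA : Accretive A) (t : ℝ) (ht : 1 / 2 < t)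
    (ht1 : t < 1) : numRadius A ^ t ≤ numRadius (fracPow A t) := by
  have ht0 : 0 < t := by linarith
  by_cases hne : ∃ x0 : Fin n → ℂ, ∑ i, ‖x0 i‖ ^ 2 = 1
  swap
  · have h1 : ∀ M : Matrix (Fin n) (Fin n) ℂ, numRadius M = 0 := by
      intro M
      have : {r : ℝ | ∃ x : Fin n → ℂ, ∑ i, ‖x i‖ ^ 2 = 1 ∧ r = ‖form M x‖} = ∅ := by
        ext r
        simp only [Set.mem_ofPred_eq, Set.mem_empty_iff_false, iff_false]
        rintro ⟨x, hx, -⟩
        exact hne ⟨x, hx⟩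
      unfold numRadius
      rw [this, Real.sSup_empty]
    rw [h1, h1, Real.zero_rpow ht0.ne']
  -- approximations
  have hη : ∀ k : ℕ, (0 : ℝ) < 1 / ((k : ℝ) + 1) := fun k => by positivity
  choose ε hε0 hε1 S lam hS hdiag using fun k : ℕ => exists_eps A (1 / ((k : ℝ) + 1)) (hη k)
  have hε1' : ∀ k, ε k < 1 := fun k => by
    refine (hε1 k).trans_le ?_
    rw [div_le_one (by positivity)]
    have : (0 : ℝ) ≤ k := by positivity
    linarith
  have hεlim : Tendsto ε atTop (𝓝 0) :=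
    squeeze_zero (fun k => (hε0 k).le) (fun k => (hε1 k).le) tendsto_one_div_add_atTop_nhds_zero_nat
  set B : ℕ → Matrix (Fin n) (Fin n) ℂ := fun k => (1 - (ε k : ℂ)) • A + (ε k : ℂ) • Lam n with hBdef
  have hBacc : ∀ k, Accretive (B k) := by
    intro k x hx
    have h1 : form (B k) x = ((1 - ε k : ℝ) : ℂ) * form A x + (ε k : ℂ) * form (Lam n) x := by
      rw [hBdef]; simp only
      rw [form_add, form_smul, form_smul]
      push_cast; rfl
    rw [h1, add_re, re_ofReal_mul, re_ofReal_mul]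
    have h2 := hA x hx
    have h3 := form_Lam_re x hx
    have h4 := hε0 k
    have h5 := hε1' k
    nlinarith [mul_pos (sub_pos.2 h5) h2]
  have hBlim : Tendsto B atTop (𝓝 A) := by
    have h1 : Tendsto (fun k => ((ε k : ℝ) : ℂ)) atTop (𝓝 ((0 : ℝ) : ℂ)) :=
      (Complex.continuous_ofReal.tendsto 0).comp hεlim
    have h2 : Tendsto (fun k => (1 - (ε k : ℂ)) • A + (ε k : ℂ) • Lam n) atTop
        (𝓝 ((1 - ((0 : ℝ) : ℂ)) • A + ((0 : ℝ) : ℂ) • Lam n)) :=
      ((tendsto_const_nhds.sub h1).smul_const A).add (h1.smul_const _)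
    have h3 : ((1 - ((0 : ℝ) : ℂ)) • A + ((0 : ℝ) : ℂ) • Lam n) = A := by simp
    rw [h3] at h2
    exact h2
  set K : ℝ := ∑ i, ∑ l, (‖A i l‖ + ‖Lam n i l‖) with hK
  have hKB : ∀ k i, ∑ l, ‖B k i l‖ ≤ K := by
    intro k i
    have h1 : ∑ l, ‖B k i l‖ ≤ ∑ l, (‖A i l‖ + ‖Lam n i l‖) := by
      refine Finset.sum_le_sum fun l _ => ?_
      rw [hBdef]
      simp only [Matrix.add_apply, Matrix.smul_apply, smul_eq_mul]
      refine (norm_add_le _ _).trans ?_
      rw [norm_mul, norm_mul]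
      have e1 : ‖(1 - (ε k : ℂ))‖ ≤ 1 := by
        rw [← ofReal_one, ← ofReal_sub, Complex.norm_real, Real.norm_of_nonneg (by linarith [hε1' k])]
        linarith [hε0 k]
      have e2 : ‖(ε k : ℂ)‖ ≤ 1 := by
        rw [Complex.norm_real, Real.norm_of_nonneg (hε0 k).le]; exact (hε1' k).le
      exact add_le_add (mul_le_of_le_one_left (norm_nonneg _) e1)
        (mul_le_of_le_one_left (norm_nonneg _) e2)
    refine h1.trans ?_
    rw [hK]
    exact Finset.single_le_sum (f := fun i => ∑ l, (‖A i l‖ + ‖Lam n i l‖))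
      (fun j _ => Finset.sum_nonneg fun l _ => by positivity) (Finset.mem_univ i)
  have hconv : ∀ i j, Tendsto (fun k => fracPow (B k) t i j) atTop (𝓝 (fracPow A t i j)) :=
    tendsto_fracPow (fun v => hA.nonneg v) B (fun k v => (hBacc k).nonneg v) hBlim hKB t ht0 ht1
  -- the inequality for each unit vector
  have hmain : ∀ x0 : Fin n → ℂ, ∑ i, ‖x0 i‖ ^ 2 = 1 → ‖form A x0‖ ^ t ≤ numRadius (fracPow A t) := by
    intro x0 hx0
    have hk : ∀ k, ‖form (B k) x0‖ ^ t ≤ numRadius (fracPow A t) +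
        ∑ i, ∑ j, ‖(fracPow (B k) t - fracPow A t) i j‖ := by
      intro k
      obtain ⟨x, hx, hmax⟩ := exists_max (B k) hx0
      have h1 : ‖form (B k) x‖ ^ t ≤ ‖form (fracPow (B k) t) x‖ := by
        have hd : B k = Phi (S k) (lam k) := hdiag k
        have hacc := hBacc k
        rw [hd] at hacc hmax ⊢
        exact diag_main (hS k) (lam k) hacc t ht ht1 x hx hmax
      have h2 : ‖form (B k) x0‖ ^ t ≤ ‖form (B k) x‖ ^ t :=
        Real.rpow_le_rpow (norm_nonneg _) (hmax x0 hx0) ht0.le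
      have h3 : form (fracPow (B k) t) x = form (fracPow A t) x +
          form (fracPow (B k) t - fracPow A t) x := by rw [form_sub]; ring
      refine h2.trans (h1.trans ?_)
      rw [h3]
      refine (norm_add_le _ _).trans ?_
      exact add_le_add (form_le_numRadius _ hx) (form_bound _ hx)
    have hl1 : Tendsto (fun k => ‖form (B k) x0‖ ^ t) atTop (𝓝 (‖form A x0‖ ^ t)) := by
      have h1 : Tendsto (fun k => form (B k) x0) atTop (𝓝 (form A x0)) := by
        have hc : Continuous fun M : Matrix (Fin n) (Fin n) ℂ => form M x0 := by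
          unfold form
          simp only [Matrix.mulVec, dotProduct]
          fun_prop
        exact (hc.tendsto A).comp hBlim
      exact h1.norm.rpow_const (Or.inr ht0.le)
    have hl2 : Tendsto (fun k => numRadius (fracPow A t) +
        ∑ i, ∑ j, ‖(fracPow (B k) t - fracPow A t) i j‖) atTop (𝓝 (numRadius (fracPow A t) +
        ∑ i : Fin n, ∑ j : Fin n, (0 : ℝ))) := by
      refine Tendsto.const_add _ (tendsto_finsetSum _ fun i _ => tendsto_finsetSum _ fun j _ => ?_)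
      have h1 : Tendsto (fun k => (fracPow (B k) t - fracPow A t) i j) atTop (𝓝 0) := by
        have := (hconv i j).sub_const (fracPow A t i j)
        rw [sub_self] at this
        exact this
      have := h1.norm
      rwa [norm_zero] at this
    have := le_of_tendsto_of_tendsto' hl1 hl2 hk
    simpa using this
  -- conclude
  obtain ⟨x0, hx0⟩ := hne
  obtain ⟨x, hx, hmax⟩ := exists_max A hx0
  have h1 : numRadius A = ‖form A x‖ := by
    refine le_antisymm ?_ (form_le_numRadius A hx)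
    refine csSup_le ⟨_, x, hx, rfl⟩ ?_
    rintro r ⟨v, hv, rfl⟩
    exact hmax v hv
  rw [h1]
  exact hmain x hx

end Pool.Agent.H63N.NR
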