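import Mathlib

/-!
# Univariate part: odd powers of nonnegative polynomials as sums of squares with a gluing condition
-/

set_option autoImplicit false

open Filter Topology Polynomial

namespace Pool.Agent.H63N.StubUni

noncomputable section

/-- the two glued points -/
def z1 : ℂ := 9 * Complex.I

/-- the two glued points -/
def z2 : ℂ := 10 * Complex.I

def q : ℝ[X] := (X ^ 2 + C 81) * (X ^ 2 + C 100)

theorem z1_sq : z1 ^ 2 = -81 := by
  unfold z1; rw [mul_pow, Complex.I_sq]; norm_num

theorem z2_sq : z2 ^ 2 = -100 := by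
  unfold z2; rw [mul_pow, Complex.I_sq]; norm_num

theorem q_z1 : aeval z1 q = 0 := by
  simp only [q, map_mul, map_add, map_pow, aeval_X, aeval_C, z1_sq]
  simp

theorem q_z2 : aeval z2 q = 0 := by
  simp only [q, map_mul, map_add, map_pow, aeval_X, aeval_C, z2_sq]
  simp

theorem q_pos (x : ℝ) : 0 < q.eval x := by
  simp only [q, eval_mul, eval_add, eval_pow, eval_X, eval_C]
  positivity

theorem q_deg : q.natDegree = 4 := by
  unfold q
  rw [natDegree_mul]
  · have h1 : (X ^ 2 + C 81 : ℝ[X]).natDegree = 2 := by compute_degree!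
    have h2 : (X ^ 2 + C 100 : ℝ[X]).natDegree = 2 := by compute_degree!
    rw [h1, h2]
  · intro h
    have := congrArg (eval 0) h
    simp at this
  · intro h
    have := congrArg (eval 0) h
    simp at this

theorem q_ne : q ≠ 0 := by
  intro h
  have := q_deg
  rw [h] at this
  simp at this

/-- a polynomial vanishing at both points is divisible by `q` -/
theorem q_dvd {p : ℝ[X]} (h1 : aeval z1 p = 0) (h2 : aeval z2 p = 0) : q ∣ p := by
  have hz1 : z1.im ≠ 0 := by simp [z1]
  have hz2 : z2.im ≠ 0 := by simp [z2]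
  have e1 : (X ^ 2 - C (2 * z1.re) * X + C (‖z1‖ ^ 2) : ℝ[X]) = X ^ 2 + C 81 := by
    have : ‖z1‖ = 9 := by simp [z1]
    rw [this, show z1.re = 0 by simp [z1], show (9 : ℝ) ^ 2 = 81 by norm_num]
    simp
  have e2 : (X ^ 2 - C (2 * z2.re) * X + C (‖z2‖ ^ 2) : ℝ[X]) = X ^ 2 + C 100 := by
    have : ‖z2‖ = 10 := by simp [z2]
    rw [this, show z2.re = 0 by simp [z2], show (10 : ℝ) ^ 2 = 100 by norm_num]
    simp
  obtain ⟨p', hp'⟩ := p.quadratic_dvd_of_aeval_eq_zero_im_ne_zero h1 hz1
  rw [e1] at hp'
  have h3 : aeval z2 p' = 0 := by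
    rw [hp', map_mul] at h2
    rcases mul_eq_zero.1 h2 with h | h
    · exfalso
      simp only [map_add, map_pow, aeval_X, aeval_C, z2_sq] at h
      norm_num at h
    · exact h
  obtain ⟨p'', hp''⟩ := p'.quadratic_dvd_of_aeval_eq_zero_im_ne_zero h3 hz2
  rw [e2] at hp''
  exact ⟨p'', by rw [hp', hp'', q]; ring⟩

/-- interpolation at the two points -/
theorem interp (α β : ℂ) : ∃ T : ℝ[X], T.natDegree ≤ 3 ∧ aeval z1 T = α ∧ aeval z2 T = β := by
  refine ⟨(C (α.re / 19) + C (α.im / 171) * X) * (X ^ 2 + C 100)
    - (C (β.re / 19) + C (β.im / 190) * X) * (X ^ 2 + C 81), ?_, ?_, ?_⟩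
  · compute_degree
  · simp only [map_sub, map_mul, map_add, map_pow, aeval_X, aeval_C, z1_sq]
    apply Complex.ext <;> simp [z1] <;> ring
  · simp only [map_sub, map_mul, map_add, map_pow, aeval_X, aeval_C, z2_sq]
    apply Complex.ext <;> simp [z2] <;> ring

/-- square roots modulo `q ^ 2` -/
theorem hensel (P : ℝ[X]) (α β : ℂ) (hα : α ≠ 0) (hβ : β ≠ 0) (h1 : α ^ 2 = aeval z1 P)
    (h2 : β ^ 2 = aeval z2 P) : ∃ T : ℝ[X], T.natDegree ≤ 7 ∧ aeval z1 T = α ∧ aeval z2 T = β ∧
      q ^ 2 ∣ P - T ^ 2 := by
  obtain ⟨T, hT, hT1, hT2⟩ := interp α β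
  have hd : q ∣ P - T ^ 2 := by
    apply q_dvd
    · rw [map_sub, map_pow, hT1, h1, sub_self]
    · rw [map_sub, map_pow, hT2, h2, sub_self]
  obtain ⟨E, hE⟩ := hd
  obtain ⟨Y, hY, hY1, hY2⟩ := interp (aeval z1 E / (2 * α)) (aeval z2 E / (2 * β))
  have hd2 : q ∣ E - 2 * T * Y := by
    apply q_dvd
    · rw [map_sub, map_mul, map_mul, hT1, hY1, map_ofNat]
      field_simp
      ring
    · rw [map_sub, map_mul, map_mul, hT2, hY2, map_ofNat]
      field_simp
      ring
  obtain ⟨D, hD⟩ := hd2
  refine ⟨T + q * Y, ?_, ?_, ?_, ⟨D - Y ^ 2, ?_⟩⟩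
  · refine (natDegree_add_le _ _).trans (max_le (by omega) ?_)
    refine natDegree_mul_le.trans ?_
    rw [q_deg]; omega
  · rw [map_add, map_mul, q_z1, zero_mul, add_zero, hT1]
  · rw [map_add, map_mul, q_z2, zero_mul, add_zero, hT2]
  · calc P - (T + q * Y) ^ 2 = (P - T ^ 2) - q * (2 * T * Y) - q ^ 2 * Y ^ 2 := by ring
      _ = q * (E - 2 * T * Y) - q ^ 2 * Y ^ 2 := by rw [hE]; ring
      _ = _ := by rw [hD]; ring

/-- A nonnegative real polynomial is a sum of two squares of polynomials of at most half degree
(after `Pool.Agent.H699R2.sos_of_nonneg`). -/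
theorem sos (n : ℕ) : ∀ p : ℝ[X], p.natDegree ≤ n → (∀ x, 0 ≤ p.eval x) →
    ∃ a b : ℝ[X], p = a ^ 2 + b ^ 2 ∧ 2 * a.natDegree ≤ p.natDegree ∧
      2 * b.natDegree ≤ p.natDegree := by
  induction n using Nat.strong_induction_on with
  | _ n ih =>
    intro p hpn hp
    rcases Nat.eq_zero_or_pos p.natDegree with h0 | hpos
    · rw [eq_C_of_natDegree_eq_zero h0] at hp ⊢
      have h1 := hp 0
      rw [eval_C] at h1
      refine ⟨C (Real.sqrt (p.coeff 0)), 0, ?_, by simp, by simp⟩
      rw [← C_pow, Real.sq_sqrt h1]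
      simp
    · have hp0 : p ≠ 0 := by
        rintro rfl
        simp at hpos
      by_cases hroot : ∃ r, p.eval r = 0
      · obtain ⟨r, hr⟩ := hroot
        obtain ⟨q, hq⟩ := dvd_iff_isRoot.2 (show IsRoot p r from hr)
        have hmin : IsLocalMin (fun x => p.eval x) r := by
          refine Eventually.of_forall fun x => ?_
          change p.eval r ≤ p.eval x
          rw [hr]
          exact hp x
        have hder : p.derivative.eval r = 0 := by
          rw [← Polynomial.deriv]
          exact hmin.deriv_eq_zero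
        have hqr : q.eval r = 0 := by
          rw [hq] at hder
          simpa [derivative_mul] using hder
        obtain ⟨s, hs⟩ := dvd_iff_isRoot.2 (show IsRoot q r from hqr)
        have hps : p = (X - C r) ^ 2 * s := by
          rw [hq, hs]
          ring
        have hs0 : s ≠ 0 := by
          rintro rfl
          apply hp0
          rw [hps, mul_zero]
        have hdeg : p.natDegree = 2 + s.natDegree := by
          rw [hps, natDegree_mul (pow_ne_zero _ (X_sub_C_ne_zero r)) hs0, natDegree_pow,
            natDegree_X_sub_C]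
        have hsn : ∀ x, 0 ≤ s.eval x := by
          have h1 : ∀ x, x ≠ r → 0 ≤ s.eval x := by
            intro x hx
            have h2 := hp x
            rw [hps, eval_mul] at h2
            have h3 : 0 < eval x ((X - C r) ^ 2) := by
              have : x - r ≠ 0 := sub_ne_zero.2 hx
              simp only [eval_pow, eval_sub, eval_X, eval_C]
              positivity
            exact nonneg_of_mul_nonneg_right h2 h3
          intro x
          by_cases hx : x = r
          · subst hx
            have h2 : Tendsto (fun y => s.eval y) (𝓝[≠] x) (𝓝 (s.eval x)) :=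
              s.continuous.continuousAt.tendsto.mono_left nhdsWithin_le_nhds
            refine ge_of_tendsto h2 ?_
            filter_upwards [self_mem_nhdsWithin] with y hy
            exact h1 y hy
          · exact h1 x hx
        obtain ⟨a, b, hab, ha, hb⟩ := ih s.natDegree (by omega) s le_rfl hsn
        refine ⟨(X - C r) * a, (X - C r) * b, ?_, ?_, ?_⟩
        · rw [hps, hab]
          ring
        · have := natDegree_mul_le (p := X - C r) (q := a)
          rw [natDegree_X_sub_C] at this
          omega
        · have := natDegree_mul_le (p := X - C r) (q := b)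
          rw [natDegree_X_sub_C] at this
          omega
      · push Not at hroot
        obtain ⟨z, hz⟩ := IsAlgClosed.exists_aeval_eq_zero ℂ p
          (natDegree_pos_iff_degree_pos.1 hpos).ne'
        have him : z.im ≠ 0 := by
          intro him
          apply hroot z.re
          have h1 : z = ((z.re : ℝ) : ℂ) := by
            apply Complex.ext <;> simp [him]
          rw [h1] at hz
          have h2 : aeval ((z.re : ℝ) : ℂ) p = ((p.eval z.re : ℝ) : ℂ) := by
            have := aeval_algebraMap_apply ℂ z.re p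
            simpa using this
          rw [h2] at hz
          exact_mod_cast hz
        obtain ⟨s, hs⟩ := p.quadratic_dvd_of_aeval_eq_zero_im_ne_zero hz him
        have hquad : (X ^ 2 - C (2 * z.re) * X + C (‖z‖ ^ 2) : ℝ[X]) =
            (X - C z.re) ^ 2 + C z.im ^ 2 := by
          have : ‖z‖ ^ 2 = z.re ^ 2 + z.im ^ 2 := by
            rw [← Complex.normSq_eq_norm_sq, Complex.normSq_apply]
            ring
          rw [this]
          simp only [C_add, C_mul, C_pow, map_ofNat]
          ring
        rw [hquad] at hs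
        have hq0 : ((X - C z.re) ^ 2 + C z.im ^ 2 : ℝ[X]) ≠ 0 := by
          intro h
          apply hp0
          rw [hs, h, zero_mul]
        have hs0 : s ≠ 0 := by
          rintro rfl
          apply hp0
          rw [hs, mul_zero]
        have hqd : ((X - C z.re) ^ 2 + C z.im ^ 2 : ℝ[X]).natDegree = 2 := by
          rw [← hquad]
          compute_degree!
        have hdeg : p.natDegree = 2 + s.natDegree := by
          rw [hs, natDegree_mul hq0 hs0, hqd]
        have hsn : ∀ x, 0 ≤ s.eval x := by
          intro x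
          have h2 := hp x
          rw [hs, eval_mul] at h2
          have h3 : 0 < eval x ((X - C z.re) ^ 2 + C z.im ^ 2 : ℝ[X]) := by
            simp only [eval_pow, eval_sub, eval_X, eval_C, eval_add]
            positivity
          exact nonneg_of_mul_nonneg_right h2 h3
        obtain ⟨a, b, hab, ha, hb⟩ := ih s.natDegree (by omega) s le_rfl hsn
        refine ⟨(X - C z.re) * a - C z.im * b, (X - C z.re) * b + C z.im * a, ?_, ?_, ?_⟩
        · rw [hs, hab]
          ring
        · have h1 := natDegree_mul_le (p := X - C z.re) (q := a)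
          have h2 := natDegree_mul_le (p := C z.im) (q := b)
          have h3 := natDegree_sub_le ((X - C z.re) * a) (C z.im * b)
          rw [natDegree_X_sub_C] at h1
          rw [natDegree_C] at h2
          rcases max_cases ((X - C z.re) * a).natDegree (C z.im * b).natDegree with h | h <;> omega
        · have h1 := natDegree_mul_le (p := X - C z.re) (q := b)
          have h2 := natDegree_mul_le (p := C z.im) (q := a)
          have h3 := natDegree_add_le ((X - C z.re) * b) (C z.im * a)
          rw [natDegree_X_sub_C] at h1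
          rw [natDegree_C] at h2
          rcases max_cases ((X - C z.re) * b).natDegree (C z.im * a).natDegree with h | h <;> omega

/-- factorisation into a totally split square and a positive polynomial -/
theorem factor (n : ℕ) : ∀ p : ℝ[X], p.natDegree ≤ n → p ≠ 0 → (∀ x, 0 ≤ p.eval x) →
    ∃ (s : Multiset ℝ) (H : ℝ[X]), p = (s.map fun r => X - C r).prod ^ 2 * H ∧
      ∀ x, 0 < H.eval x := by
  induction n using Nat.strong_induction_on with
  | _ n ih =>
    intro p hpn hp0 hp
    by_cases hroot : ∃ r, p.eval r = 0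
    · obtain ⟨r, hr⟩ := hroot
      obtain ⟨q, hq⟩ := dvd_iff_isRoot.2 (show IsRoot p r from hr)
      have hmin : IsLocalMin (fun x => p.eval x) r := by
        refine Eventually.of_forall fun x => ?_
        change p.eval r ≤ p.eval x
        rw [hr]
        exact hp x
      have hder : p.derivative.eval r = 0 := by
        rw [← Polynomial.deriv]
        exact hmin.deriv_eq_zero
      have hqr : q.eval r = 0 := by
        rw [hq] at hder
        simpa [derivative_mul] using hder
      obtain ⟨s, hs⟩ := dvd_iff_isRoot.2 (show IsRoot q r from hqr)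
      have hps : p = (X - C r) ^ 2 * s := by
        rw [hq, hs]
        ring
      have hs0 : s ≠ 0 := by
        rintro rfl
        apply hp0
        rw [hps, mul_zero]
      have hdeg : p.natDegree = 2 + s.natDegree := by
        rw [hps, natDegree_mul (pow_ne_zero _ (X_sub_C_ne_zero r)) hs0, natDegree_pow,
          natDegree_X_sub_C]
      have hsn : ∀ x, 0 ≤ s.eval x := by
        have h1 : ∀ x, x ≠ r → 0 ≤ s.eval x := by
          intro x hx
          have h2 := hp x
          rw [hps, eval_mul] at h2
          have h3 : 0 < eval x ((X - C r) ^ 2) := by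
            have : x - r ≠ 0 := sub_ne_zero.2 hx
            simp only [eval_pow, eval_sub, eval_X, eval_C]
            positivity
          exact nonneg_of_mul_nonneg_right h2 h3
        intro x
        by_cases hx : x = r
        · subst hx
          have h2 : Tendsto (fun y => s.eval y) (𝓝[≠] x) (𝓝 (s.eval x)) :=
            s.continuous.continuousAt.tendsto.mono_left nhdsWithin_le_nhds
          refine ge_of_tendsto h2 ?_
          filter_upwards [self_mem_nhdsWithin] with y hy
          exact h1 y hy
        · exact h1 x hx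
      obtain ⟨t, H, hH, hpos⟩ := ih s.natDegree (by omega) s le_rfl hs0 hsn
      refine ⟨r ::ₘ t, H, ?_, hpos⟩
      rw [Multiset.map_cons, Multiset.prod_cons, hps, hH]
      ring
    · push Not at hroot
      exact ⟨0, p, by simp, fun x => lt_of_le_of_ne (hp x) (hroot x).symm⟩

/-- the values of a totally split polynomial at the two points are close -/
theorem close (s : Multiset ℝ) :
    ‖aeval z1 (s.map fun r => X - C r).prod - aeval z2 (s.map fun r => X - C r).prod‖
      ≤ (s.card / 10 : ℝ) * ‖aeval z2 (s.map fun r => X - C r).prod‖ := by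
  induction s using Multiset.induction_on with
  | empty => simp
  | cons r t ih =>
    rw [Multiset.map_cons, Multiset.prod_cons, map_mul, map_mul, Multiset.card_cons]
    set A := aeval z1 (t.map fun r => X - C r).prod
    set B := aeval z2 (t.map fun r => X - C r).prod
    have e1 : aeval z1 (X - C r) = z1 - r := by simp
    have e2 : aeval z2 (X - C r) = z2 - r := by simp
    rw [e1, e2]
    have n1 : ‖z1 - r‖ ≤ ‖z2 - r‖ := by
      rw [← sq_le_sq₀ (norm_nonneg _) (norm_nonneg _), ← Complex.normSq_eq_norm_sq,
        ← Complex.normSq_eq_norm_sq, Complex.normSq_apply, Complex.normSq_apply]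
      simp [z1, z2]
      norm_num
    have n2 : (10 : ℝ) ≤ ‖z2 - r‖ := by
      have : |(z2 - r).im| ≤ ‖z2 - r‖ := Complex.abs_im_le_norm _
      simpa [z2] using this
    have e3 : (z1 - r) * A - (z2 - r) * B = (A - B) * (z1 - r) - Complex.I * B := by
      unfold z1 z2; ring
    calc ‖(z1 - r) * A - (z2 - r) * B‖ = ‖(A - B) * (z1 - r) - Complex.I * B‖ := by rw [e3]
      _ ≤ ‖A - B‖ * ‖z1 - r‖ + 1 * ‖B‖ := by
        refine (norm_sub_le _ _).trans ?_
        rw [norm_mul, norm_mul, Complex.norm_I]
      _ ≤ (t.card / 10 : ℝ) * ‖B‖ * ‖z2 - r‖ + (‖z2 - r‖ / 10) * ‖B‖ := by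
        have h1 : ‖A - B‖ * ‖z1 - r‖ ≤ (t.card / 10 : ℝ) * ‖B‖ * ‖z2 - r‖ :=
          mul_le_mul ih n1 (norm_nonneg _) (by positivity)
        have h2 : 1 * ‖B‖ ≤ (‖z2 - r‖ / 10) * ‖B‖ :=
          mul_le_mul_of_nonneg_right (by linarith) (norm_nonneg _)
        linarith
      _ = ((t.card + 1 : ℕ) / 10 : ℝ) * ‖(z2 - r) * B‖ := by
        rw [norm_mul]; push_cast; ring

theorem split_ne (s : Multiset ℝ) (z : ℂ) (hz : z.im ≠ 0) :
    aeval z (s.map fun r => (X - C r : ℝ[X])).prod ≠ 0 := by
  induction s using Multiset.induction_on with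
  | empty => simp
  | cons r t ih =>
    rw [Multiset.map_cons, Multiset.prod_cons, map_mul]
    refine mul_ne_zero ?_ ih
    have e1 : aeval z (X - C r) = z - r := by simp
    rw [e1]
    intro h
    have := congrArg Complex.im h
    simp at this
    exact hz this

/-- comparison of polynomials on the line -/
theorem compare (P Q : ℝ[X]) (hd : P.natDegree ≤ Q.natDegree) (hQ : ∀ x, 0 < Q.eval x) :
    ∃ c : ℝ, 0 < c ∧ ∀ x, |P.eval x| ≤ c * Q.eval x := by
  have hQ0 : Q ≠ 0 := by
    rintro rfl
    have := hQ 0
    simp at this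
  have hdeg : P.degree ≤ Q.degree := by
    rw [degree_eq_natDegree hQ0]
    exact natDegree_le_iff_degree_le.1 hd
  have h1 : P.eval =O[atTop] Q.eval := by
    exact Polynomial.isBigO_atTop_of_degree_le P Q hdeg
  have h2 : (P.comp (-X)).eval =O[atTop] (Q.comp (-X)).eval := by
    apply Polynomial.isBigO_atTop_of_degree_le
    rw [degree_comp_neg_X, degree_comp_neg_X]
    exact hdeg
  obtain ⟨c1, hc1⟩ := h1.bound
  obtain ⟨c2, hc2⟩ := h2.bound
  rw [eventually_atTop] at hc1 hc2
  obtain ⟨M1, hM1⟩ := hc1
  obtain ⟨M2, hM2⟩ := hc2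
  have hcont : Continuous fun x => |P.eval x| / Q.eval x :=
    (P.continuous.abs).div Q.continuous fun x => (hQ x).ne'
  obtain ⟨c3, hc3⟩ := (isCompact_Icc (a := -M2) (b := M1)).bddAbove_image hcont.continuousOn
  refine ⟨|c1| + |c2| + |c3| + 1, by positivity, fun x => ?_⟩
  have hq := hQ x
  have key : ∀ c : ℝ, |P.eval x| ≤ c * Q.eval x → c ≤ |c1| + |c2| + |c3| + 1 →
      |P.eval x| ≤ (|c1| + |c2| + |c3| + 1) * Q.eval x := fun c h h' =>
    h.trans (mul_le_mul_of_nonneg_right h' hq.le)
  have a1 := le_abs_self c1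
  have a2 := le_abs_self c2
  have a3 := le_abs_self c3
  have b1 := abs_nonneg c1
  have b2 := abs_nonneg c2
  have b3 := abs_nonneg c3
  rcases le_total M1 x with h | h
  · have := hM1 x h
    rw [Real.norm_eq_abs, Real.norm_eq_abs, abs_of_pos hq] at this
    exact key c1 this (by linarith)
  rcases le_total M2 (-x) with h' | h'
  · have := hM2 (-x) h'
    simp only [eval_comp, eval_neg, eval_X, neg_neg] at this
    rw [Real.norm_eq_abs, Real.norm_eq_abs, abs_of_pos hq] at this
    exact key c2 this (by linarith)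
  · have : |P.eval x| / Q.eval x ≤ c3 := hc3 ⟨x, ⟨by linarith, h⟩, rfl⟩
    rw [div_le_iff₀ hq] at this
    exact key c3 this (by linarith)

/-- the polynomials with equal values at the two points -/
def Eq2 (g : ℝ[X]) : Prop := aeval z1 g = aeval z2 g

theorem eq2_zero : Eq2 0 := by simp [Eq2]

theorem im_z1 : z1.im ≠ 0 := by simp [z1]

theorem im_z2 : z2.im ≠ 0 := by simp [z2]

theorem eq2_q_mul (g : ℝ[X]) : Eq2 (q * g) := by
  unfold Eq2
  rw [map_mul, map_mul, q_z1, q_z2, zero_mul, zero_mul]

theorem eq2_mul_q_mul (f g : ℝ[X]) : Eq2 (f * (q * g)) := by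
  unfold Eq2
  rw [map_mul, map_mul, map_mul, map_mul, q_z1, q_z2]
  simp

theorem sq_add_one_deg (e : ℕ) : ((1 + X ^ 2 : ℝ[X]) ^ e).natDegree = 2 * e := by
  have h1 : (1 + X ^ 2 : ℝ[X]).natDegree = 2 := by compute_degree!
  rw [natDegree_pow, h1, mul_comm]

/-- the damping polynomial -/
theorem damp (H : ℝ[X]) (hH : ∀ x, 0 < H.eval x) (hD : 0 < H.natDegree) :
    ∃ (U : ℝ[X]) (δ : ℝ), 0 < δ ∧ δ ≤ 1 ∧ q ^ 2 ∣ H ^ 8 - U ∧ U.natDegree ≤ 8 * H.natDegree ∧
      ∀ x, 0 ≤ U.eval x ∧ U.eval x ≤ (1 - δ) * H.eval x ^ 8 := by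
  set D := H.natDegree with hDdef
  set R : ℝ[X] := q ^ 2 * (1 + X ^ 2) ^ (4 * D - 4) with hR
  have hRpos : ∀ x, 0 < R.eval x := by
    intro x
    rw [hR]
    simp only [eval_mul, eval_pow, eval_add, eval_one, eval_X]
    have := q_pos x
    positivity
  have hRdeg : R.natDegree = 8 * D := by
    rw [hR, natDegree_mul (pow_ne_zero _ q_ne), sq_add_one_deg, natDegree_pow, q_deg]
    · omega
    · apply pow_ne_zero
      intro h
      have := congrArg (eval 0) h
      simp at this
  have hHdeg : (H ^ 8).natDegree = 8 * D := by rw [natDegree_pow]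
  have hH8 : ∀ x, 0 < (H ^ 8).eval x := by
    intro x
    rw [eval_pow]
    have := hH x
    positivity
  obtain ⟨c, hc0, hc⟩ := compare R (H ^ 8) (by omega) hH8
  obtain ⟨d, hd0, hd⟩ := compare (H ^ 8) R (by omega) hRpos
  refine ⟨H ^ 8 - C (1 / c) * R, min 1 (1 / (c * d)), by positivity, min_le_left _ _, ?_, ?_, ?_⟩
  · refine ⟨C (1 / c) * (1 + X ^ 2) ^ (4 * D - 4), ?_⟩
    rw [hR]; ring
  · refine (natDegree_sub_le _ _).trans (max_le hHdeg.le ?_)
    refine natDegree_mul_le.trans ?_
    rw [natDegree_C, hRdeg]; omega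
  · intro x
    have h1 := hc x
    have h2 := hd x
    have h3 := hRpos x
    have h4 := hH8 x
    rw [abs_of_pos h3] at h1
    rw [abs_of_pos h4] at h2
    simp only [eval_sub, eval_mul, eval_C]
    constructor
    · rw [sub_nonneg, div_mul_eq_mul_div, one_mul, div_le_iff₀ hc0]
      linarith
    · have h5 : min 1 (1 / (c * d)) * H.eval x ^ 8 ≤ 1 / c * R.eval x := by
        calc min 1 (1 / (c * d)) * H.eval x ^ 8 ≤ 1 / (c * d) * H.eval x ^ 8 := by
              have : 0 < H.eval x ^ 8 := by rwa [eval_pow] at h4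
              exact mul_le_mul_of_nonneg_right (min_le_right _ _) this.le
          _ ≤ 1 / (c * d) * (d * R.eval x) := by
              rw [eval_pow] at h2
              exact mul_le_mul_of_nonneg_left h2 (by positivity)
          _ = _ := by field_simp
      rw [eval_pow]
      linarith

/-- **Key univariate theorem.** -/
theorem main (f : ℝ[X]) (hdeg : f.natDegree ≤ 20) (hf : ∀ x, 0 ≤ f.eval x) (he : Eq2 f) :
    ∃ (m : ℕ) (g : Fin 3 → ℝ[X]), Odd m ∧ (∀ i, (g i).natDegree ≤ 10 * m) ∧ (∀ i, Eq2 (g i)) ∧
      f ^ m = ∑ i, g i ^ 2 := by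
  by_cases hf0 : f = 0
  · refine ⟨1, fun _ => 0, odd_one, by simp, fun _ => eq2_zero, by simp [hf0]⟩
  obtain ⟨s, H, hfac, hH⟩ := factor _ f le_rfl hf0 hf
  set G : ℝ[X] := (s.map fun r => X - C r).prod with hG
  have hG1 : aeval z1 G ≠ 0 := split_ne s z1 im_z1
  have hG2 : aeval z2 G ≠ 0 := split_ne s z2 im_z2
  have hGdeg : G.natDegree = s.card := by
    rw [hG, natDegree_multiset_prod_X_sub_C_eq_card]
  have hG0 : G ≠ 0 := by
    intro h
    rw [h] at hG1
    simp at hG1
  have hH0 : H ≠ 0 := by
    rintro rfl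
    have := hH 0
    simp at this
  have hfdeg : f.natDegree = 2 * s.card + H.natDegree := by
    rw [hfac, natDegree_mul (pow_ne_zero _ hG0) hH0, natDegree_pow, hGdeg]
  have hf1 : aeval z1 f = aeval z1 G ^ 2 * aeval z1 H := by rw [hfac, map_mul, map_pow]
  have hf2 : aeval z2 f = aeval z2 G ^ 2 * aeval z2 H := by rw [hfac, map_mul, map_pow]
  have hGpow : ∀ m, (G ^ m).natDegree = m * s.card := by
    intro m; rw [natDegree_pow, hGdeg]
  rcases Nat.eq_zero_or_pos H.natDegree with hD | hD
  · -- all zeros are real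
    obtain ⟨c, hc⟩ : ∃ c, H = C c := ⟨_, eq_C_of_natDegree_eq_zero hD⟩
    have hc0 : 0 < c := by
      have := hH 0
      rwa [hc, eval_C] at this
    have hcc : (Real.sqrt c) ^ 2 = c := Real.sq_sqrt hc0.le
    have hfs : f = (C (Real.sqrt c) * G) ^ 2 := by
      rw [hfac, hc, mul_pow, ← C_pow, hcc]; ring
    have hsq : aeval z1 G ^ 2 = aeval z2 G ^ 2 := by
      have h1 : aeval z1 f = aeval z2 f := he
      rw [hf1, hf2, hc, aeval_C, aeval_C] at h1
      have h2 : (algebraMap ℝ ℂ c) ≠ 0 := by
        simpa using hc0.ne'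
      exact mul_right_cancel₀ h2 h1
    have heq : aeval z1 G = aeval z2 G := by
      rcases sq_eq_sq_iff_eq_or_eq_neg.1 hsq with h | h
      · exact h
      · exfalso
        have h1 := close s
        rw [← hG, h] at h1
        have h2 : ‖-aeval z2 G - aeval z2 G‖ = 2 * ‖aeval z2 G‖ := by
          rw [show -aeval z2 G - aeval z2 G = -(2 * aeval z2 G) by ring, norm_neg, norm_mul]
          simp
        rw [h2] at h1
        have h3 : 0 < ‖aeval z2 G‖ := norm_pos_iff.2 hG2
        have h4 : (s.card / 10 : ℝ) ≤ 1 := by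
          have : (s.card : ℝ) ≤ 10 := by
            have : s.card ≤ 10 := by omega
            exact_mod_cast this
          linarith
        nlinarith
    refine ⟨1, ![C (Real.sqrt c) * G, 0, 0], odd_one, ?_, ?_, ?_⟩
    · intro i
      fin_cases i
      · have : (C (Real.sqrt c) * G).natDegree ≤ 10 := by
          refine natDegree_mul_le.trans ?_
          rw [natDegree_C, hGdeg]; omega
        simpa using this
      · simp
      · simp
    · intro i
      fin_cases i
      · change aeval z1 (C (Real.sqrt c) * G) = aeval z2 (C (Real.sqrt c) * G)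
        rw [map_mul, map_mul, aeval_C, aeval_C, heq]
      · exact eq2_zero
      · exact eq2_zero
    · rw [Fin.sum_univ_three, pow_one, hfs]
      simp
  · by_cases hz : aeval z1 H = 0
    · -- the common zero lies at the glued points
      have hz' : aeval z2 H = 0 := by
        have h1 : aeval z1 f = aeval z2 f := he
        rw [hf1, hf2, hz, mul_zero] at h1
        rcases mul_eq_zero.1 h1.symm with h | h
        · exact absurd h (pow_ne_zero _ hG2)
        · exact h
      obtain ⟨K, hK⟩ := q_dvd hz hz'
      have hK0 : K ≠ 0 := by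
        rintro rfl
        rw [mul_zero] at hK
        exact hH0 hK
      have hKpos : ∀ x, 0 < K.eval x := by
        intro x
        have := hH x
        rw [hK, eval_mul] at this
        exact (mul_pos_iff_of_pos_left (q_pos x)).1 this
      obtain ⟨a, b, hab, ha, hb⟩ := sos _ (q * K ^ 3) le_rfl (fun x => by
        rw [eval_mul, eval_pow]
        have := q_pos x
        have := hKpos x
        positivity)
      have hKdeg : H.natDegree = 4 + K.natDegree := by
        rw [hK, natDegree_mul q_ne hK0, q_deg]
      have hqK : (q * K ^ 3).natDegree = 4 + 3 * K.natDegree := by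
        rw [natDegree_mul q_ne (pow_ne_zero _ hK0), q_deg, natDegree_pow]
      refine ⟨3, ![G ^ 3 * (q * a), G ^ 3 * (q * b), 0], by decide, ?_, ?_, ?_⟩
      · have hb1 : ∀ a : ℝ[X], 2 * a.natDegree ≤ (q * K ^ 3).natDegree →
            (G ^ 3 * (q * a)).natDegree ≤ 10 * 3 := by
          intro a ha
          have h1 := natDegree_mul_le (p := G ^ 3) (q := q * a)
          have h2 := natDegree_mul_le (p := q) (q := a)
          rw [q_deg] at h2
          rw [hGpow] at h1
          omega
        intro i
        fin_cases i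
        · exact hb1 a ha
        · exact hb1 b hb
        · simp
      · intro i
        fin_cases i
        · exact eq2_mul_q_mul _ _
        · exact eq2_mul_q_mul _ _
        · exact eq2_zero
      · rw [Fin.sum_univ_three]
        simp only [Matrix.cons_val_zero, Matrix.cons_val_one, Matrix.cons_val_two]
        rw [hfac, hK]
        calc (G ^ 2 * (q * K)) ^ 3 = G ^ 6 * q ^ 2 * (q * K ^ 3) := by ring
          _ = G ^ 6 * q ^ 2 * (a ^ 2 + b ^ 2) := by rw [← hab]
          _ = _ := by simp; ring
    · -- the main case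
      have hfz1 : aeval z1 f ≠ 0 := by
        rw [hf1]; exact mul_ne_zero (pow_ne_zero _ hG1) hz
      have hfz : aeval z1 f = aeval z2 f := he
      obtain ⟨α, hα⟩ : ∃ α : ℂ, α ^ 2 = aeval z1 (H ^ 15) :=
        IsAlgClosed.exists_pow_nat_eq _ (by norm_num)
      have hα0 : α ≠ 0 := by
        rintro rfl
        rw [map_pow] at hα
        exact pow_ne_zero 15 hz (by rw [← hα]; simp)
      set β : ℂ := aeval z1 G ^ 15 * α / aeval z2 G ^ 15 with hβdef
      have hβ0 : β ≠ 0 := by
        rw [hβdef]
        exact div_ne_zero (mul_ne_zero (pow_ne_zero _ hG1) hα0) (pow_ne_zero _ hG2)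
      have hβ : β ^ 2 = aeval z2 (H ^ 15) := by
        rw [hβdef, div_pow, mul_pow, hα, map_pow, map_pow,
          div_eq_iff (pow_ne_zero _ (pow_ne_zero _ hG2))]
        have h1 := hfz
        rw [hf1, hf2] at h1
        calc (aeval z1 G ^ 15) ^ 2 * aeval z1 H ^ 15
            = (aeval z1 G ^ 2 * aeval z1 H) ^ 15 := by ring
          _ = (aeval z2 G ^ 2 * aeval z2 H) ^ 15 := by rw [h1]
          _ = _ := by ring
      obtain ⟨T0, hT0d, hT01, hT02, hT0⟩ := hensel (H ^ 15) α β hα0 hβ0 hα hβ
      obtain ⟨U, δ, hδ0, hδ1, hUq, hUd, hU⟩ := damp H hH hD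
      have hH15 : ∀ x, 0 < (H ^ 15).eval x := by
        intro x
        rw [eval_pow]
        have := hH x
        positivity
      obtain ⟨c, hc0, hc⟩ := compare (T0 ^ 2) (H ^ 15) (by
        rw [natDegree_pow, natDegree_pow]; omega) hH15
      obtain ⟨n, hn⟩ : ∃ n : ℕ, ((1 - δ) ^ n) ^ 2 * c ≤ 1 := by
        rcases eq_or_lt_of_le hδ1 with h | h
        · exact ⟨1, by rw [h]; simp⟩
        · have h1 : Tendsto (fun n : ℕ => ((1 - δ) ^ n) ^ 2 * c) atTop (𝓝 (0 ^ 2 * c)) := by
            apply Tendsto.mul_const
            apply Tendsto.pow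
            exact tendsto_pow_atTop_nhds_zero_of_lt_one (by linarith) (by linarith)
          rw [zero_pow (by norm_num), zero_mul] at h1
          exact ((tendsto_order.1 h1).2 1 one_pos).exists.imp fun n hn => hn.le
      obtain ⟨m, hm⟩ : ∃ m, m = 16 * n + 15 := ⟨_, rfl⟩
      obtain ⟨T, hT⟩ : ∃ T, T = U ^ n * T0 := ⟨_, rfl⟩
      -- the difference is nonnegative and divisible by `q ^ 2`
      have hdiv : q ^ 2 ∣ H ^ m - T ^ 2 := by
        have h1 : q ^ 2 ∣ (H ^ 8) ^ (2 * n) - U ^ (2 * n) :=
          hUq.trans (sub_dvd_pow_sub_pow _ _ _)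
        have h2 : H ^ m - T ^ 2 = ((H ^ 8) ^ (2 * n) - U ^ (2 * n)) * H ^ 15
            + U ^ (2 * n) * (H ^ 15 - T0 ^ 2) := by
          rw [hm, hT]; ring
        rw [h2]
        exact dvd_add (h1.mul_right _) (hT0.mul_left _)
      obtain ⟨P, hP⟩ := hdiv
      have hTle : ∀ x, (T.eval x) ^ 2 ≤ (H.eval x) ^ m := by
        intro x
        have hHx := hH x
        have h1 := (hU x).1
        have h2 := (hU x).2
        have h3 := hc x
        rw [eval_pow, eval_pow, abs_of_nonneg (sq_nonneg _)] at h3
        have h4 : U.eval x ^ n ≤ (1 - δ) ^ n * (H.eval x ^ 8) ^ n := by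
          rw [← mul_pow]
          exact pow_le_pow_left₀ h1 h2 n
        have h5 : (U.eval x ^ n) ^ 2 ≤ ((1 - δ) ^ n * (H.eval x ^ 8) ^ n) ^ 2 :=
          pow_le_pow_left₀ (by positivity) h4 2
        rw [hT, eval_mul, eval_pow, mul_pow]
        calc (U.eval x ^ n) ^ 2 * T0.eval x ^ 2
            ≤ ((1 - δ) ^ n * (H.eval x ^ 8) ^ n) ^ 2 * (c * H.eval x ^ 15) :=
              mul_le_mul h5 h3 (sq_nonneg _) (sq_nonneg _)
          _ = (((1 - δ) ^ n) ^ 2 * c) * H.eval x ^ m := by rw [hm]; ring
          _ ≤ 1 * H.eval x ^ m := mul_le_mul_of_nonneg_right hn (by positivity)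
          _ = _ := one_mul _
      have hPnn : ∀ x, 0 ≤ P.eval x := by
        intro x
        have h1 := congrArg (eval x) hP
        rw [eval_sub, eval_pow, eval_pow, eval_mul, eval_pow] at h1
        have h2 := hTle x
        have h3 : 0 < q.eval x ^ 2 := by
          have := q_pos x
          positivity
        by_contra hneg
        push Not at hneg
        have h4 := mul_neg_of_pos_of_neg h3 hneg
        linarith
      obtain ⟨a, b, hab, ha, hb⟩ := sos _ P le_rfl hPnn
      have hTd : 2 * T.natDegree ≤ m * H.natDegree := by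
        have h1 := natDegree_mul_le (p := U ^ n) (q := T0)
        have h2 := natDegree_pow_le (p := U) (n := n)
        have h3 : n * U.natDegree ≤ n * (8 * H.natDegree) := Nat.mul_le_mul_left _ hUd
        have h4 : m * H.natDegree = 2 * (n * (8 * H.natDegree)) + 15 * H.natDegree := by
          rw [hm]; ring
        rw [h4, hT]
        omega
      have hHm : (H ^ m).natDegree = m * H.natDegree := natDegree_pow _ _
      have hmD : 15 ≤ m * H.natDegree := by
        calc 15 = 15 * 1 := rfl
          _ ≤ m * H.natDegree := Nat.mul_le_mul (by omega) hD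
      have hPd : P.natDegree + 8 ≤ m * H.natDegree := by
        by_cases hP0 : P = 0
        · rw [hP0, natDegree_zero]; omega
        · have h1 : (q ^ 2 * P).natDegree = 8 + P.natDegree := by
            rw [natDegree_mul (pow_ne_zero _ q_ne) hP0, natDegree_pow, q_deg]
          have h2 : (H ^ m - T ^ 2).natDegree ≤ m * H.natDegree := by
            refine (natDegree_sub_le _ _).trans (max_le hHm.le ?_)
            refine natDegree_pow_le.trans ?_
            omega
          rw [hP, h1] at h2
          omega
      have hmf : m * f.natDegree = 2 * (m * s.card) + m * H.natDegree := by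
        rw [hfdeg]; ring
      have hmf20 : m * f.natDegree ≤ 20 * m := by
        calc m * f.natDegree ≤ m * 20 := Nat.mul_le_mul_left _ hdeg
          _ = _ := by ring
      refine ⟨m, ![G ^ m * T, G ^ m * (q * a), G ^ m * (q * b)], ?_, ?_, ?_, ?_⟩
      · exact ⟨8 * n + 7, by omega⟩
      · have hb1 : ∀ a : ℝ[X], 2 * a.natDegree ≤ P.natDegree →
            (G ^ m * (q * a)).natDegree ≤ 10 * m := by
          intro a ha
          have h1 := natDegree_mul_le (p := G ^ m) (q := q * a)
          have h2 := natDegree_mul_le (p := q) (q := a)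
          rw [q_deg] at h2
          rw [hGpow] at h1
          omega
        intro i
        fin_cases i
        · have h1 := natDegree_mul_le (p := G ^ m) (q := T)
          rw [hGpow] at h1
          change (G ^ m * T).natDegree ≤ 10 * m
          omega
        · exact hb1 a ha
        · exact hb1 b hb
      · intro i
        fin_cases i
        · change aeval z1 (G ^ m * T) = aeval z2 (G ^ m * T)
          have hU1 : aeval z1 U = aeval z1 H ^ 8 := by
            obtain ⟨W, hW⟩ := hUq
            have : U = H ^ 8 - q ^ 2 * W := by rw [← hW]; ring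
            rw [this, map_sub, map_mul, map_pow, map_pow, q_z1]
            simp
          have hU2 : aeval z2 U = aeval z2 H ^ 8 := by
            obtain ⟨W, hW⟩ := hUq
            have : U = H ^ 8 - q ^ 2 * W := by rw [← hW]; ring
            rw [this, map_sub, map_mul, map_pow, map_pow, q_z2]
            simp
          have e1 : aeval z1 (G ^ m * T) = aeval z1 f ^ (8 * n) * (aeval z1 G ^ 15 * α) := by
            rw [hT, map_mul, map_mul, map_pow, map_pow, hU1, hT01, hf1, hm]
            ring
          have e2 : aeval z2 (G ^ m * T) = aeval z2 f ^ (8 * n) * (aeval z2 G ^ 15 * β) := by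
            rw [hT, map_mul, map_mul, map_pow, map_pow, hU2, hT02, hf2, hm]
            ring
          rw [e1, e2, hfz, hβdef, mul_div_cancel₀ _ (pow_ne_zero _ hG2)]
        · exact eq2_mul_q_mul _ _
        · exact eq2_mul_q_mul _ _
      · rw [Fin.sum_univ_three]
        simp only [Matrix.cons_val_zero, Matrix.cons_val_one, Matrix.cons_val_two]
        have h1 : H ^ m = T ^ 2 + q ^ 2 * (a ^ 2 + b ^ 2) := by
          rw [← hab, ← hP]; ring
        rw [hfac, mul_pow, h1]
        simp
        ring

end

end Pool.Agent.H63N.StubUni
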